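import Pool.Agent.Q151.MM.Space

/-!
# Closeness relations defining the box and the observable distance
-/

open Set MeasureTheory Filter Topology ProbabilityTheory
open scoped ENNReal NNReal

namespace Pool.Agent.Q151.MM

/-- The box distance. -/
noncomputable def dbox (X Y : MMSpace) : ℝ≥0∞ :=
  ⨅ (φ : ℝ → X.carrier) (_ : IsParam X φ) (ψ : ℝ → Y.carrier) (_ : IsParam Y ψ) (ε : ℝ≥0)
    (_ : ∃ I₀ ⊆ Ico (0 : ℝ) 1, MeasurableSet I₀ ∧ 1 - (ε : ℝ≥0∞) ≤ volume I₀ ∧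
      ∀ s ∈ I₀, ∀ t ∈ I₀, |dist (φ s) (φ t) - dist (ψ s) (ψ t)| ≤ ε), (ε : ℝ≥0∞)

/-- `f` and `g` differ by more than `ε` on a set of measure at most `ε`. -/
def KF (ε : ℝ≥0) (f g : ℝ → ℝ) : Prop := lam {t | (ε : ℝ) < |f t - g t|} ≤ ε

section KF
variable {ε ε' : ℝ≥0} {f g h f' g' : ℝ → ℝ}

theorem KF.mono (H : KF ε f g) (hε : ε ≤ ε') : KF ε' f g := by
  unfold KF at *
  refine (measure_mono ?_).trans (H.trans (by exact_mod_cast hε))
  intro t ht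
  have : (ε : ℝ) ≤ ε' := by exact_mod_cast hε
  exact lt_of_le_of_lt this ht

theorem KF.symm (H : KF ε f g) : KF ε g f := by
  unfold KF at *
  simp_rw [abs_sub_comm]
  exact H

theorem KF.refl (f : ℝ → ℝ) : KF ε f f := by
  unfold KF
  have : {t | (ε : ℝ) < |f t - f t|} = ∅ := by
    ext t; simp
  rw [this]; simp

theorem KF.trans (H : KF ε f g) (H' : KF ε' g h) : KF (ε + ε') f h := by
  unfold KF at *
  have : {t | ((ε + ε' : ℝ≥0) : ℝ) < |f t - h t|} ⊆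
      {t | (ε : ℝ) < |f t - g t|} ∪ {t | (ε' : ℝ) < |g t - h t|} := by
    intro t ht
    by_contra hc
    simp only [mem_union, mem_setOf_eq, not_or, not_lt] at hc
    have h1 := abs_sub_le (f t) (g t) (h t)
    have h2 : ((ε + ε' : ℝ≥0) : ℝ) < |f t - h t| := ht
    push_cast at h2
    linarith [hc.1, hc.2]
  refine (measure_mono this).trans ((measure_union_le _ _).trans ?_)
  push_cast
  exact add_le_add H H'

theorem KF.comp {α : ℝ → ℝ} (hα : Measurable α) (hm : lam.map α = lam) (H : KF ε f g) :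
    KF ε (f ∘ α) (g ∘ α) := by
  unfold KF at *
  have h1 : lam (α ⁻¹' {t | (ε : ℝ) < |f t - g t|}) ≤ lam.map α {t | (ε : ℝ) < |f t - g t|} :=
    Measure.le_map_apply hα.aemeasurable _
  rw [hm] at h1
  exact h1.trans H

theorem KF.congr (H : KF ε f g) (hf : ∀ᵐ t ∂lam, f t = f' t) (hg : ∀ᵐ t ∂lam, g t = g' t) :
    KF ε f' g' := by
  unfold KF at *
  refine le_trans (measure_mono_ae ?_) H
  filter_upwards [hf, hg] with t h1 h2 h3
  have h4 : (ε : ℝ) < |f' t - g' t| := h3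
  rw [← h1, ← h2] at h4
  exact h4

end KF

theorem IsParam.comp {X : MMSpace} {φ : ℝ → X.carrier} (h : IsParam X φ) {α : ℝ → ℝ}
    (hα : Measurable α) (hm : lam.map α = lam) : IsParam X (φ ∘ α) :=
  ⟨h.1.comp hα, by rw [← Measure.map_map h.1 hα, hm, h.2]⟩

/-- Every 1-Lipschitz function on `X` is close to one on `Y`. -/
def Half (X Y : MMSpace) (φ : ℝ → X.carrier) (ψ : ℝ → Y.carrier) (ε : ℝ≥0) : Prop :=
  ∀ f : X.carrier → ℝ, LipschitzWith 1 f → ∃ g : Y.carrier → ℝ, LipschitzWith 1 g ∧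
    KF ε (f ∘ φ) (g ∘ ψ)

/-- Closeness for the observable distance. -/
def CR (X Y : MMSpace) (ε : ℝ≥0) : Prop :=
  ∃ φ ψ, IsParam X φ ∧ IsParam Y ψ ∧ Half X Y φ ψ ε ∧ Half Y X ψ φ ε

/-- Closeness of parameters for the box distance. -/
def BC (X Y : MMSpace) (φ : ℝ → X.carrier) (ψ : ℝ → Y.carrier) (ε : ℝ≥0) : Prop :=
  ∃ I₀ : Set ℝ, MeasurableSet I₀ ∧ lam I₀ᶜ ≤ ε ∧
    ∀ s ∈ I₀, ∀ t ∈ I₀, |dist (φ s) (φ t) - dist (ψ s) (ψ t)| ≤ ε

/-- Closeness for the box distance. -/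
def BR (X Y : MMSpace) (ε : ℝ≥0) : Prop := ∃ φ ψ, IsParam X φ ∧ IsParam Y ψ ∧ BC X Y φ ψ ε

theorem CR.mono {X Y : MMSpace} {ε ε' : ℝ≥0} (h : CR X Y ε) (hε : ε ≤ ε') : CR X Y ε' := by
  obtain ⟨φ, ψ, hφ, hψ, h1, h2⟩ := h
  refine ⟨φ, ψ, hφ, hψ, ?_, ?_⟩
  · intro f hf
    obtain ⟨g, hg, hk⟩ := h1 f hf
    exact ⟨g, hg, hk.mono hε⟩
  · intro f hf
    obtain ⟨g, hg, hk⟩ := h2 f hf
    exact ⟨g, hg, hk.mono hε⟩

theorem CR.symm {X Y : MMSpace} {ε : ℝ≥0} (h : CR X Y ε) : CR Y X ε := by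
  obtain ⟨φ, ψ, hφ, hψ, h1, h2⟩ := h
  exact ⟨ψ, φ, hψ, hφ, h2, h1⟩

theorem CR.trans {X Y Z : MMSpace} {a b : ℝ≥0} (h : CR X Y a) (h' : CR Y Z b) :
    CR X Z (a + b) := by
  obtain ⟨φ, ψ, hφ, hψ, h1, h2⟩ := h
  obtain ⟨ψ', χ, hψ', hχ, h3, h4⟩ := h'
  obtain ⟨α, β, hα, hβ, mα, mβ, hae⟩ := glue hψ.1 hψ'.1 (hψ.2.trans hψ'.2.symm)
  refine ⟨φ ∘ α, χ ∘ β, hφ.comp hα mα, hχ.comp hβ mβ, ?_, ?_⟩
  · intro f hf
    obtain ⟨g, hg, hk⟩ := h1 f hf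
    obtain ⟨k, hk', hk2⟩ := h3 g hg
    refine ⟨k, hk', ?_⟩
    have e1 := hk.comp hα mα
    have e2 := hk2.comp hβ mβ
    refine (e1.congr (ae_of_all _ fun _ => rfl) ?_).trans e2
    filter_upwards [hae] with t ht
    simp only [Function.comp]
    rw [ht]
  · intro f hf
    obtain ⟨g, hg, hk⟩ := h4 f hf
    obtain ⟨k, hk', hk2⟩ := h2 g hg
    refine ⟨k, hk', ?_⟩
    have e1 := hk.comp hβ mβ
    have e2 := hk2.comp hα mα
    rw [add_comm]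
    refine (e1.congr (ae_of_all _ fun _ => rfl) ?_).trans e2
    filter_upwards [hae] with t ht
    simp only [Function.comp]
    rw [ht]

theorem BR.mono {X Y : MMSpace} {ε ε' : ℝ≥0} (h : BR X Y ε) (hε : ε ≤ ε') : BR X Y ε' := by
  obtain ⟨φ, ψ, hφ, hψ, I, hI, hm, hd⟩ := h
  have : (ε : ℝ) ≤ ε' := by exact_mod_cast hε
  exact ⟨φ, ψ, hφ, hψ, I, hI, hm.trans (by exact_mod_cast hε),
    fun s hs t ht => (hd s hs t ht).trans this⟩

theorem BC.symm {X Y : MMSpace} {φ : ℝ → X.carrier} {ψ : ℝ → Y.carrier} {ε : ℝ≥0}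
    (h : BC X Y φ ψ ε) : BC Y X ψ φ ε := by
  obtain ⟨I, hI, hm, hd⟩ := h
  exact ⟨I, hI, hm, fun s hs t ht => by rw [abs_sub_comm]; exact hd s hs t ht⟩

theorem BR.symm {X Y : MMSpace} {ε : ℝ≥0} (h : BR X Y ε) : BR Y X ε := by
  obtain ⟨φ, ψ, hφ, hψ, h⟩ := h
  exact ⟨ψ, φ, hψ, hφ, h.symm⟩

theorem BR.trans {X Y Z : MMSpace} {a b : ℝ≥0} (h : BR X Y a) (h' : BR Y Z b) :
    BR X Z (a + b) := by
  obtain ⟨φ, ψ, hφ, hψ, I, hI, hm, hd⟩ := h
  obtain ⟨ψ', χ, hψ', hχ, I', hI', hm', hd'⟩ := h'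
  obtain ⟨α, β, hα, hβ, mα, mβ, hae⟩ := glue hψ.1 hψ'.1 (hψ.2.trans hψ'.2.symm)
  refine ⟨φ ∘ α, χ ∘ β, hφ.comp hα mα, hχ.comp hβ mβ,
    α ⁻¹' I ∩ β ⁻¹' I' ∩ {t | ψ (α t) = ψ' (β t)}, ?_, ?_, ?_⟩
  · exact ((hα hI).inter (hβ hI')).inter
      (measurableSet_eq_fun (hψ.1.comp hα) (hψ'.1.comp hβ))
  · have h0 : lam {t | ψ (α t) = ψ' (β t)}ᶜ = 0 := hae
    have h1 : lam (α ⁻¹' I)ᶜ ≤ a := by
      rw [← preimage_compl, ← Measure.map_apply hα hI.compl, mα]; exact hm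
    have h2 : lam (β ⁻¹' I')ᶜ ≤ b := by
      rw [← preimage_compl, ← Measure.map_apply hβ hI'.compl, mβ]; exact hm'
    rw [compl_inter, compl_inter]
    refine (measure_union_le _ _).trans ?_
    rw [h0, add_zero]
    refine (measure_union_le _ _).trans ?_
    push_cast
    exact add_le_add h1 h2
  · rintro s ⟨⟨hs1, hs2⟩, hs3⟩ t ⟨⟨ht1, ht2⟩, ht3⟩
    have e1 := hd _ hs1 _ ht1
    have e2 := hd' _ hs2 _ ht2
    have hs3 : ψ (α s) = ψ' (β s) := hs3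
    have ht3 : ψ (α t) = ψ' (β t) := ht3
    rw [hs3, ht3] at e1
    simp only [Function.comp]
    push_cast
    have := abs_sub_le (dist (φ (α s)) (φ (α t))) (dist (ψ' (β s)) (ψ' (β t)))
      (dist (χ (β s)) (χ (β t)))
    linarith

/-! ### Comparison with the distances -/

theorem dconc_lt_iff (X Y : MMSpace) (ε : ℝ≥0∞) :
    dconc X Y < ε ↔ ∃ δ : ℝ≥0, (δ : ℝ≥0∞) < ε ∧ CR X Y δ := by
  constructor
  · intro h
    obtain ⟨φ, ψ, hφ, hψ, h⟩ := dconc_lt h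
    obtain ⟨r, hr1, hr2⟩ := ENNReal.lt_iff_exists_nnreal_btwn.1 h
    refine ⟨r, hr2, φ, ψ, hφ, hψ, ?_, ?_⟩
    · intro f hf
      have h1 : (⨅ g ∈ pull Y ψ, dKF (f ∘ φ) g) < r := by
        refine lt_of_le_of_lt ?_ hr1
        refine le_trans ?_ (le_max_left _ _)
        exact le_iSup₂ (f := fun (f : ℝ → ℝ) (_ : f ∈ pull X φ) => ⨅ g ∈ pull Y ψ, dKF f g)
          (f ∘ φ) ⟨f, hf, rfl⟩
      simp only [iInf_lt_iff] at h1
      obtain ⟨g, ⟨G, hG, rfl⟩, hg⟩ := h1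
      obtain ⟨δ, hδ, hk⟩ := dKF_lt hg
      exact ⟨G, hG, (show KF δ _ _ from hk).mono (by exact_mod_cast hδ.le)⟩
    · intro g hg
      have h1 : (⨅ f ∈ pull X φ, dKF f (g ∘ ψ)) < r := by
        refine lt_of_le_of_lt ?_ hr1
        refine le_trans ?_ (le_max_right _ _)
        exact le_iSup₂ (f := fun (g : ℝ → ℝ) (_ : g ∈ pull Y ψ) => ⨅ f ∈ pull X φ, dKF f g)
          (g ∘ ψ) ⟨g, hg, rfl⟩
      simp only [iInf_lt_iff] at h1
      obtain ⟨f, ⟨G, hG, rfl⟩, hf⟩ := h1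
      obtain ⟨δ, hδ, hk⟩ := dKF_lt hf
      exact ⟨G, hG, ((show KF δ _ _ from hk).mono (by exact_mod_cast hδ.le)).symm⟩
  · rintro ⟨δ, hδ, φ, ψ, hφ, hψ, h1, h2⟩
    refine lt_of_le_of_lt ?_ hδ
    refine (iInf₂_le_of_le φ hφ (iInf₂_le_of_le ψ hψ le_rfl)).trans ?_
    refine max_le ?_ ?_
    · refine iSup₂_le ?_
      rintro _ ⟨f, hf, rfl⟩
      obtain ⟨g, hg, hk⟩ := h1 f hf
      exact iInf₂_le_of_le (g ∘ ψ) ⟨g, hg, rfl⟩ (iInf₂_le_of_le δ hk le_rfl)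
    · refine iSup₂_le ?_
      rintro _ ⟨g, hg, rfl⟩
      obtain ⟨f, hf, hk⟩ := h2 g hg
      exact iInf₂_le_of_le (f ∘ φ) ⟨f, hf, rfl⟩ (iInf₂_le_of_le δ hk.symm le_rfl)

theorem lam_compl (I : Set ℝ) (hI : MeasurableSet I) (ε : ℝ≥0) :
    lam Iᶜ ≤ ε ↔ 1 - (ε : ℝ≥0∞) ≤ lam I := by
  rw [measure_compl hI (measure_ne_top _ _), measure_univ, tsub_le_iff_right, tsub_le_iff_right,
    add_comm]

theorem dbox_lt_iff (X Y : MMSpace) (ε : ℝ≥0∞) :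
    dbox X Y < ε ↔ ∃ δ : ℝ≥0, (δ : ℝ≥0∞) < ε ∧ BR X Y δ := by
  constructor
  · intro h
    simp only [dbox, iInf_lt_iff] at h
    obtain ⟨φ, hφ, ψ, hψ, δ, ⟨I, hIs, hI, hm, hd⟩, hδ⟩ := h
    refine ⟨δ, hδ, φ, ψ, hφ, hψ, I, hI, ?_, hd⟩
    rw [lam_compl I hI]
    unfold lam
    rw [Measure.restrict_apply hI, inter_eq_left.2 hIs]
    exact hm
  · rintro ⟨δ, hδ, φ, ψ, hφ, hψ, I, hI, hm, hd⟩
    refine lt_of_le_of_lt ?_ hδ
    refine iInf₂_le_of_le φ hφ (iInf₂_le_of_le ψ hψ (iInf₂_le_of_le δ ?_ le_rfl))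
    refine ⟨I ∩ Ico 0 1, inter_subset_right, hI.inter measurableSet_Ico, ?_, ?_⟩
    · rw [lam_compl I hI] at hm
      unfold lam at hm
      rw [Measure.restrict_apply hI] at hm
      exact hm
    · rintro s ⟨hs, -⟩ t ⟨ht, -⟩
      exact hd s hs t ht

/-! ### Box closeness implies concentration closeness -/

theorem lip_iff {X : Type*} [MetricSpace X] (f : X → ℝ) :
    LipschitzWith 1 f ↔ ∀ x y, |f x - f y| ≤ dist x y := by
  constructor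
  · intro h x y
    have := h.dist_le_mul x y
    simpa [Real.dist_eq] using this
  · intro h
    apply LipschitzWith.of_dist_le_mul
    intro x y
    simpa [Real.dist_eq] using h x y

theorem BC.half {X Y : MMSpace} {φ : ℝ → X.carrier} {ψ : ℝ → Y.carrier} {ε : ℝ≥0}
    (h : BC X Y φ ψ ε) : Half X Y φ ψ ε := by
  obtain ⟨I, hI, hm, hd⟩ := h
  intro f hf
  rw [lip_iff] at hf
  rcases I.eq_empty_or_nonempty with rfl | ⟨s0, hs0⟩
  · refine ⟨fun _ => 0, LipschitzWith.const' 0, ?_⟩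
    unfold KF
    refine le_trans ?_ hm
    rw [compl_empty]
    exact measure_mono (subset_univ _)
  haveI : Nonempty I := ⟨⟨s0, hs0⟩⟩
  set g : Y.carrier → ℝ := fun y => ⨅ s : I, (f (φ s) + dist y (ψ s)) with hg
  have hbdd : ∀ y, BddBelow (range fun s : I => f (φ s) + dist y (ψ s)) := by
    intro y
    refine ⟨f (φ s0) - ε - dist y (ψ s0), ?_⟩
    rintro _ ⟨s, rfl⟩
    have h1 := abs_le.1 (hf (φ s) (φ s0))
    have h2 := abs_le.1 (hd s s.2 s0 hs0)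
    have h3 := dist_triangle_left (ψ s) (ψ s0) y
    simp only
    linarith [h1.1, h2.2]
  have hle : ∀ y (s : I), g y ≤ f (φ s) + dist y (ψ s) := fun y s => ciInf_le (hbdd y) s
  have hlip : ∀ x y, g x ≤ g y + dist x y := by
    intro x y
    rw [← sub_le_iff_le_add]
    apply le_ciInf
    intro s
    have := hle x s
    have h3 := dist_triangle x y (ψ s)
    linarith
  refine ⟨g, ?_, ?_⟩
  · rw [lip_iff]
    intro x y
    rw [abs_le]
    constructor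
    · have := hlip y x
      rw [dist_comm y x] at this
      linarith
    · have := hlip x y
      linarith
  · unfold KF
    refine (measure_mono ?_).trans hm
    intro t ht hts
    have ht : (ε : ℝ) < |f (φ t) - g (ψ t)| := ht
    have h1 := hle (ψ t) ⟨t, hts⟩
    simp only [dist_self, add_zero] at h1
    have h2 : f (φ t) - ε ≤ g (ψ t) := by
      apply le_ciInf
      intro s
      have e1 := abs_le.1 (hf (φ t) (φ s))
      have e2 := abs_le.1 (hd t hts s s.2)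
      linarith [e1.2, e2.2]
    have h3 : |f (φ t) - g (ψ t)| ≤ ε := by
      rw [abs_le]; constructor <;> linarith [ε.2]
    linarith

theorem BR.cr {X Y : MMSpace} {ε : ℝ≥0} (h : BR X Y ε) : CR X Y ε := by
  obtain ⟨φ, ψ, hφ, hψ, h⟩ := h
  exact ⟨φ, ψ, hφ, hψ, h.half, h.symm.half⟩

theorem MMIso.br {X Y : MMSpace} (h : MMIso X Y) : BR X Y 0 := by
  obtain ⟨F, hF, hb, hi, hm⟩ := h
  obtain ⟨φ, hφ⟩ := exists_param X
  refine ⟨φ, F ∘ φ, hφ, ⟨hF.comp hφ.1, ?_⟩, φ ⁻¹' X.mu.support, ?_, ?_, ?_⟩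
  · rw [← Measure.map_map hF hφ.1, hφ.2, hm]
  · exact hφ.1 Measure.isClosed_support.measurableSet
  · rw [← preimage_compl, ← Measure.map_apply hφ.1
      Measure.isClosed_support.measurableSet.compl, hφ.2, Measure.measure_compl_support]
    simp
  · intro s hs t ht
    have := hi _ hs _ ht
    simp only [Function.comp]
    rw [this]; simp

end Pool.Agent.Q151.MM
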