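import Pool.Agent.Q151.MM.Top

/-!
# Contractibility of `Σ`
-/

open Set MeasureTheory Filter Topology ProbabilityTheory
open scoped ENNReal NNReal unitInterval

namespace Pool.Agent.Q151.MM

section
variable {D : MMSpace → MMSpace → ℝ≥0∞}

/-- Product with a two-point space, on classes. -/
noncomputable def Jq (c : ℝ) : XSp D → XSp D := Quot.map (fun X => X.J c) (fun _ _ h => iso_J h c)

/-- The size functional on classes. -/
noncomputable def hq (κ : ℝ) (x : XSp D) : ℝ := by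
  classical
  exact if h : 0 < κ then Quot.lift (fun X => hh X κ) (fun _ _ h' => hh_iso h' h) x else 0

theorem hq_q {κ : ℝ} (h : 0 < κ) (X : MMd D) : hq κ (q X) = hh X κ := by
  unfold hq
  rw [dif_pos h]
  rfl

theorem hq_scale {κ : ℝ} (h : 0 < κ) (t : ℝ) (ht : 0 < t) (x : XSp D) :
    hq κ (XSp.scale t ht x) = t * hq κ x := by
  obtain ⟨X, rfl⟩ := Quot.mk_surjective x
  have e1 : XSp.scale (D := D) t ht (Quot.mk _ X) = q (scM t ht X) := rfl
  have e2 : (Quot.mk _ X : XSp D) = q (D := D) X := rfl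
  rw [e1, e2, hq_q h, hq_q h]
  exact hh_scale X h t ht

theorem Jq_scale (c t : ℝ) (ht : 0 < t) (x : XSp D) :
    Jq (t * c) (XSp.scale t ht x) = XSp.scale t ht (Jq c x) := by
  obtain ⟨X, rfl⟩ := Quot.mk_surjective x
  exact (Quot.sound (iso_J_scale X c t ht)).symm

theorem Jq_zero (x : XSp D) : Jq 0 x = x := by
  obtain ⟨X, rfl⟩ := Quot.mk_surjective x
  exact Quot.sound (iso_J_zero X)

theorem Jq_ne (c : ℝ) {x : XSp D} (hx : x ≠ cls D MMSpace.pt) : Jq c x ≠ cls D MMSpace.pt := by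
  rw [Ne, ← trivq_iff] at hx ⊢
  obtain ⟨X, rfl⟩ := Quot.mk_surjective x
  exact not_triv_J hx c

/-- Product with a two-point space, on `𝒳_*`. -/
noncomputable def JS (c : ℝ) (x : XStar D) : XStar D := ⟨Jq c x.1, Jq_ne c x.2⟩

/-- The class of the two-point space. -/
noncomputable def PN : NN D := ⟨(MMSpace.pt.J 1 : MMSpace), not_triv_P⟩

/-- The homotopy on `𝒳_*`, with values in `Σ`. -/
noncomputable def Hs (x : XStar D) (s : ℝ) : Sig D := by
  classical
  exact if s < 1 then mkS (JS (hq (1 - s) x.1 / (1 - s)) x) else mkS (qN PN)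

theorem Hs_resp {x y : XStar D} (h : SameOrbit x y) (s : ℝ) : Hs x s = Hs y s := by
  unfold Hs
  by_cases hs : s < 1
  · rw [if_pos hs, if_pos hs]
    obtain ⟨t, ht, hxy⟩ := h
    apply mkS_eq.2
    refine ⟨t, ht, ?_⟩
    change Jq (hq (1 - s) y.1 / (1 - s)) y.1 = XSp.scale t ht (Jq (hq (1 - s) x.1 / (1 - s)) x.1)
    rw [hxy, hq_scale (by linarith) t ht, mul_div_assoc, Jq_scale]
  · rw [if_neg hs, if_neg hs]

theorem Hs_zero (x : XStar D) : Hs x 0 = mkS x := by
  unfold Hs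
  rw [if_pos one_pos]
  have h0 : hq (1 - 0) x.1 / (1 - 0) = 0 := by
    obtain ⟨X, hX⟩ := Quot.mk_surjective x.1
    have e2 : x.1 = q X := hX.symm
    rw [e2, sub_zero, hq_q one_pos, hh_one, zero_div]
  rw [h0]
  congr 1
  exact Subtype.ext (Jq_zero x.1)

theorem Hs_one (x : XStar D) : Hs x 1 = mkS (qN PN) := by
  unfold Hs
  rw [if_neg (lt_irrefl _)]

/-- Product with a two-point space on nontrivial mm-spaces. -/
noncomputable def KN (p : NN D × ℝ) : NN D := ⟨(MMSpace.J p.1.1 p.2 : MMSpace), not_triv_J p.1.2 p.2⟩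

theorem Hs_lt (X : NN D) {s : ℝ} (hs : s < 1) :
    Hs (qN X) s = mkS (qN (KN (X, hh X.1 (1 - s) / (1 - s)))) := by
  unfold Hs
  rw [if_pos hs]
  have e : hq (1 - s) (qN X).1 = hh X.1 (1 - s) := hq_q (by linarith) X.1
  rw [e]
  rfl

/-- The product map. -/
noncomputable def JM (p : MMd D × ℝ) : MMd D := MMSpace.J p.1 p.2

variable {R : MMSpace → MMSpace → ℝ≥0 → Prop} (hG : Gauge D R)
include hG

theorem Gauge.hh_contAt (X : MMd D) {κ : ℝ} (hκ : 0 < κ) :
    ContinuousAt (fun p : MMd D × ℝ => hh p.1 p.2) (X, κ) := by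
  rw [ContinuousAt, nhds_prod_eq,
    ((hG.basis X).prod Metric.nhds_basis_closedBall).tendsto_iff Metric.nhds_basis_closedBall]
  intro ε hε
  obtain ⟨δ, hδ, h⟩ := hh_cont X hκ hε
  refine ⟨(δ, δ), ⟨hδ, by exact_mod_cast hδ⟩, ?_⟩
  rintro ⟨Y, κ'⟩ ⟨hY, hκ'⟩
  rw [Metric.mem_closedBall, Real.dist_eq]
  apply h Y κ' (hG.cr hY)
  rw [abs_sub_comm]
  exact hκ'

theorem Gauge.J_cont : Continuous (JM (D := D)) := by
  rw [continuous_iff_continuousAt]
  rintro ⟨X, c⟩
  rw [ContinuousAt, nhds_prod_eq,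
    ((hG.basis X).prod Metric.nhds_basis_closedBall).tendsto_iff (hG.basis _)]
  intro ε hε
  refine ⟨(ε / 3, (ε / 3 : ℝ≥0)), ⟨by positivity, by positivity⟩, ?_⟩
  rintro ⟨Y, c'⟩ ⟨hY, hc'⟩
  have hc'' : |c - c'| ≤ (ε / 3 : ℝ≥0) := by
    rw [abs_sub_comm]
    exact hc'
  have h1 := hG.J hY hc''
  refine hG.mono h1 ?_
  have : 2 * (ε / 3) + ε / 3 = ε := by
    have : (2 * (ε / 3) + ε / 3 : ℝ≥0) = 3 * (ε / 3) := by ring
    rw [this, mul_div_cancel₀ _ (by norm_num)]
  exact this.le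

theorem Gauge.KN_cont : Continuous (KN (D := D)) := by
  have h : Continuous (fun p : NN D × ℝ => JM ((p.1.1 : MMd D), p.2)) :=
    hG.J_cont.comp ((continuous_subtype_val.comp continuous_fst).prodMk continuous_snd)
  exact h.subtype_mk _

theorem Gauge.P_cont : Continuous (fun X : NN D => mkS (qN X)) :=
  hG.mkS_oq.continuous.comp hG.qN_oq.continuous

theorem Gauge.H_cont : Continuous (fun p : I × NN D => Hs (qN p.2) (p.1 : ℝ)) := by
  rw [continuous_iff_continuousAt]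
  rintro ⟨s, X⟩
  rcases lt_or_eq_of_le s.2.2 with hs | hs
  · have hev : (fun p : I × NN D => Hs (qN p.2) (p.1 : ℝ)) =ᶠ[𝓝 (s, X)]
        fun p => mkS (qN (KN (p.2, hh p.2.1 (1 - (p.1 : ℝ)) / (1 - (p.1 : ℝ))))) := by
      have hopen : IsOpen {p : I × NN D | (p.1 : ℝ) < 1} :=
        isOpen_lt (continuous_subtype_val.comp continuous_fst) continuous_const
      filter_upwards [hopen.mem_nhds hs] with p hp
      exact Hs_lt p.2 hp
    refine ContinuousAt.congr ?_ hev.symm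
    have h1 : ContinuousAt (fun p : I × NN D => hh p.2.1 (1 - (p.1 : ℝ))) (s, X) := by
      have h2 : ContinuousAt (fun p : I × NN D => ((p.2.1 : MMd D), 1 - (p.1 : ℝ))) (s, X) := by
        apply Continuous.continuousAt
        exact (continuous_subtype_val.comp continuous_snd).prodMk
          (continuous_const.sub (continuous_subtype_val.comp continuous_fst))
      exact ContinuousAt.comp (f := fun p : I × NN D => ((p.2.1 : MMd D), 1 - (p.1 : ℝ)))
        (g := fun p : MMd D × ℝ => hh p.1 p.2) (x := (s, X))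
        (hG.hh_contAt X.1 (by simpa using hs)) h2
    have h3 : ContinuousAt (fun p : I × NN D => hh p.2.1 (1 - (p.1 : ℝ)) / (1 - (p.1 : ℝ)))
        (s, X) := by
      apply h1.div
      · exact (continuous_const.sub (continuous_subtype_val.comp continuous_fst)).continuousAt
      · exact (sub_pos.2 hs).ne'
    exact (hG.P_cont.comp hG.KN_cont).continuousAt.comp
      (continuous_snd.continuousAt.prodMk h3)
  · have hs1 : s = 1 := Subtype.ext hs
    subst hs1
    rw [ContinuousAt]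
    have e1 : Hs (qN X) ((1 : I) : ℝ) = mkS (qN PN) := Hs_one _
    simp only
    rw [e1]
    intro V hV
    have hV' := (hG.P_cont.continuousAt (x := PN)).preimage_mem_nhds hV
    obtain ⟨U, hU, hUV⟩ := (mem_nhds_induced (Subtype.val : NN D → MMd D) PN _).1 hV'
    obtain ⟨ε, hε, hεU⟩ := (hG.basis _).mem_iff.1 hU
    obtain ⟨δ, hδ, A, hA, hlim⟩ := hG.lim X.1 (half_pos hε)
    obtain ⟨δ2, hδ2, hdiv⟩ := hh_div X.2 (1 / A)
    rw [mem_map]
    have hn1 : {Y : NN D | R X.1 Y.1 (min δ δ2)} ∈ 𝓝 X := by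
      have : {Y : MMd D | R X.1 Y (min δ δ2)} ∈ 𝓝 X.1 :=
        (hG.basis X.1).mem_of_mem (lt_min hδ hδ2)
      exact continuous_subtype_val.continuousAt.preimage_mem_nhds this
    have hn2 : {s' : I | 1 - (δ2 : ℝ) < (s' : ℝ)} ∈ 𝓝 (1 : I) := by
      have hopen : IsOpen {s' : I | 1 - (δ2 : ℝ) < (s' : ℝ)} :=
        isOpen_lt continuous_const continuous_subtype_val
      apply hopen.mem_nhds
      have : (0 : ℝ) < δ2 := hδ2
      simp only [mem_setOf_eq, Set.Icc.coe_one]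
      linarith
    rw [nhds_prod_eq]
    filter_upwards [prod_mem_prod hn2 hn1]
    rintro ⟨s', Y⟩ ⟨hs', hY⟩
    have hs' : 1 - (δ2 : ℝ) < (s' : ℝ) := hs'
    have hY : R X.1 Y.1 (min δ δ2) := hY
    change Hs (qN Y) (s' : ℝ) ∈ V
    rcases lt_or_eq_of_le s'.2.2 with hlt | heq
    · rw [Hs_lt Y hlt]
      have hκ : 0 < 1 - (s' : ℝ) := by linarith
      have hc := hdiv Y.1 (1 - (s' : ℝ)) (hG.cr (hG.mono hY (min_le_right _ _))) hκ
        (by linarith)
      set c := hh Y.1 (1 - (s' : ℝ)) / (1 - (s' : ℝ)) with hcdef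
      have hcpos : 0 < c := lt_of_lt_of_le (by positivity) hc
      have hca : c⁻¹ ≤ A := by
        rw [inv_le_comm₀ hcpos hA]
        simpa using hc
      have h1 := hlim Y.1 (hG.mono hY (min_le_left _ _)) c⁻¹ (inv_pos.2 hcpos) hca
      have h2 := hG.symm (hG.J h1 (c := 1) (c' := 1) (δ := 0) (by simp))
      have hnt : ¬ IsTriv (MMSpace.scale Y.1 c⁻¹ (inv_pos.2 hcpos)) := Y.2
      have h3 : mkS (qN (KN (Y, c))) =
          mkS (qN (KN (D := D) (⟨MMSpace.scale Y.1 c⁻¹ (inv_pos.2 hcpos), hnt⟩, 1))) := by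
        apply mkS_eq.2
        refine ⟨c⁻¹, inv_pos.2 hcpos, ?_⟩
        have h4 := Jq_scale (D := D) c c⁻¹ (inv_pos.2 hcpos) (q Y.1)
        rw [inv_mul_cancel₀ hcpos.ne'] at h4
        exact h4
      rw [h3]
      apply hUV
      apply hεU
      have h5 : 2 * (ε / 2) + 0 = ε := by
        rw [add_zero, mul_div_cancel₀ _ two_ne_zero]
      rw [h5] at h2
      exact h2
    · rw [heq, Hs_one]
      exact mem_of_mem_nhds hV

/-- The homotopy on `Σ`. -/
noncomputable def Hbar (D : MMSpace → MMSpace → ℝ≥0∞) (p : I × Sig D) : Sig D :=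
  Quot.lift (fun x => Hs x (p.1 : ℝ)) (fun _ _ h => Hs_resp h _) p.2

theorem Gauge.Hbar_cont : Continuous (Hbar D) := by
  have h1 : IsOpenQuotientMap (Prod.map (id : I → I) (fun X : NN D => mkS (qN X))) :=
    IsOpenQuotientMap.id.prodMap (hG.mkS_oq.comp hG.qN_oq)
  rw [← h1.continuous_comp_iff]
  exact hG.H_cont

theorem Gauge.contractible : ContractibleSpace (Sig D) := by
  rw [contractible_iff_id_nullhomotopic]
  refine ⟨mkS (qN PN), ⟨⟨⟨Hbar D, hG.Hbar_cont⟩, ?_, ?_⟩⟩⟩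
  · intro z
    obtain ⟨x, rfl⟩ := Quot.mk_surjective z
    exact Hs_zero x
  · intro z
    obtain ⟨x, rfl⟩ := Quot.mk_surjective z
    exact Hs_one x

end

end Pool.Agent.Q151.MM
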