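import Mathlib

/-!
# Metric measure spaces, the observable distance and the box distance
-/

open Set MeasureTheory Filter Topology
open scoped ENNReal NNReal

namespace Pool.Agent.Q151.MM

/-- An mm-space: a complete separable metric space with a Borel probability measure. -/
structure MMSpace where
  /-- the underlying set -/
  carrier : Type
  [metric : MetricSpace carrier]
  [complete : CompleteSpace carrier]
  [separable : SecondCountableTopology carrier]
  [measurable : MeasurableSpace carrier]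
  [borel : BorelSpace carrier]
  /-- the measure -/
  mu : Measure carrier
  [prob : IsProbabilityMeasure mu]

attribute [instance] MMSpace.metric MMSpace.complete MMSpace.separable MMSpace.measurable
  MMSpace.borel MMSpace.prob

/-- mm-isomorphism: a Borel map that restricts to an isometric bijection between the supports and
maps one measure to the other. -/
def MMIso (X Y : MMSpace) : Prop :=
  ∃ F : X.carrier → Y.carrier, Measurable F ∧ BijOn F X.mu.support Y.mu.support ∧
    (∀ x ∈ X.mu.support, ∀ x' ∈ X.mu.support, dist (F x) (F x') = dist x x') ∧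
    X.mu.map F = Y.mu

/-- Lebesgue measure on `[0,1)`. -/
noncomputable def lam : Measure ℝ := volume.restrict (Ico 0 1)

instance : IsProbabilityMeasure lam := ⟨by simp [lam]⟩

/-- `φ` is a parameter of `X` (only its values on `[0,1)` matter). -/
def IsParam (X : MMSpace) (φ : ℝ → X.carrier) : Prop := Measurable φ ∧ lam.map φ = X.mu

/-- The Ky Fan distance. -/
noncomputable def dKF (f g : ℝ → ℝ) : ℝ≥0∞ :=
  ⨅ (ε : ℝ≥0) (_ : lam {t | (ε : ℝ) < |f t - g t|} ≤ ε), (ε : ℝ≥0∞)

/-- The Hausdorff distance for `dKF`. -/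
noncomputable def dHaus (A B : Set (ℝ → ℝ)) : ℝ≥0∞ :=
  max (⨆ f ∈ A, ⨅ g ∈ B, dKF f g) (⨆ g ∈ B, ⨅ f ∈ A, dKF f g)

/-- `Lip₁(X)`, pulled back to `[0,1)` by a parameter. -/
def pull (X : MMSpace) (φ : ℝ → X.carrier) : Set (ℝ → ℝ) :=
  {h | ∃ f : X.carrier → ℝ, LipschitzWith 1 f ∧ h = f ∘ φ}

/-- The observable distance. -/
noncomputable def dconc (X Y : MMSpace) : ℝ≥0∞ :=
  ⨅ (φ : ℝ → X.carrier) (_ : IsParam X φ) (ψ : ℝ → Y.carrier) (_ : IsParam Y ψ),
    dHaus (pull X φ) (pull Y ψ)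

/-- The topology given by a distance function. -/
@[instance_reducible] def distTop {α : Type*} (d : α → α → ℝ≥0∞) : TopologicalSpace α where
  IsOpen U := ∀ x ∈ U, ∃ ε > 0, ∀ y, d x y < ε → y ∈ U
  isOpen_univ := fun _ _ => ⟨1, one_pos, fun _ _ => trivial⟩
  isOpen_inter U V hU hV x hx := by
    obtain ⟨a, ha, haU⟩ := hU x hx.1
    obtain ⟨b, hb, hbV⟩ := hV x hx.2
    exact ⟨min a b, lt_min ha hb, fun y hy => ⟨haU y (hy.trans_le (min_le_left _ _)),
      hbV y (hy.trans_le (min_le_right _ _))⟩⟩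
  isOpen_sUnion 𝒰 h𝒰 x hx := by
    obtain ⟨U, hU, hxU⟩ := hx
    obtain ⟨a, ha, haU⟩ := h𝒰 U hU x hxU
    exact ⟨a, ha, fun y hy => ⟨U, hU, haU y hy⟩⟩

/-- The set of mm-isomorphism classes of mm-spaces, with the concentration topology. -/
def ConcSpace : Type 1 := Quot MMIso

noncomputable instance : TopologicalSpace ConcSpace :=
  @instTopologicalSpaceQuot _ MMIso (distTop dconc)

lemma dconc_lt {X Y : MMSpace} {ε : ℝ≥0∞} (h : dconc X Y < ε) :
    ∃ φ ψ, IsParam X φ ∧ IsParam Y ψ ∧ dHaus (pull X φ) (pull Y ψ) < ε := by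
  simp only [dconc, iInf_lt_iff] at h
  obtain ⟨φ, hφ, ψ, hψ, h⟩ := h
  exact ⟨φ, ψ, hφ, hψ, h⟩

lemma dKF_lt {f g : ℝ → ℝ} {ε : ℝ≥0∞} (h : dKF f g < ε) :
    ∃ δ : ℝ≥0, (δ : ℝ≥0∞) < ε ∧ lam {t | (δ : ℝ) < |f t - g t|} ≤ δ := by
  simp only [dKF, iInf_lt_iff] at h
  obtain ⟨δ, hδ, h⟩ := h
  exact ⟨δ, h, hδ⟩

end Pool.Agent.Q151.MM
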