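import Pool.Agent.Q151.MM.Ops

/-!
# Limits under scaling, isomorphisms of products, trivial spaces
-/

open Set MeasureTheory Filter Topology ProbabilityTheory
open scoped ENNReal NNReal

namespace Pool.Agent.Q151.MM

theorem mass (X : MMSpace) (x0 : X.carrier) {κ : ℝ≥0} (hκ : 0 < κ) :
    ∃ r : ℝ, 0 ≤ r ∧ X.mu {x | r < dist x x0} ≤ κ := by
  have hanti : Antitone (fun n : ℕ => {x : X.carrier | (n : ℝ) < dist x x0}) := by
    intro m n hmn x hx
    have h1 : (n : ℝ) < dist x x0 := hx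
    have h2 : (m : ℝ) ≤ n := by exact_mod_cast hmn
    exact lt_of_le_of_lt h2 h1
  have hmeas : ∀ n : ℕ, NullMeasurableSet {x : X.carrier | (n : ℝ) < dist x x0} X.mu := by
    intro n
    exact (isOpen_lt continuous_const (continuous_id.dist continuous_const)).measurableSet.nullMeasurableSet
  have h := tendsto_measure_iInter_atTop hmeas hanti ⟨0, measure_ne_top _ _⟩
  have he : (⋂ n : ℕ, {x : X.carrier | (n : ℝ) < dist x x0}) = ∅ := by
    ext x
    simp only [mem_iInter, mem_setOf_eq, mem_empty_iff_false, iff_false, not_forall, not_lt]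
    exact exists_nat_ge _
  rw [he, measure_empty] at h
  have h1 : ∀ᶠ n : ℕ in atTop, X.mu {x : X.carrier | (n : ℝ) < dist x x0} < κ :=
    h.eventually_lt_const (by exact_mod_cast hκ)
  obtain ⟨n, hn⟩ := h1.exists
  exact ⟨n, Nat.cast_nonneg n, hn.le⟩

theorem carrier_nonempty (X : MMSpace) : Nonempty X.carrier := by
  by_contra h
  rw [not_nonempty_iff] at h
  have : X.mu univ = 0 := by
    rw [Set.eq_empty_of_isEmpty (univ : Set X.carrier)]; simp
  simp at this

theorem param_pt : IsParam MMSpace.pt (fun _ => ()) := by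
  refine ⟨measurable_const, ?_⟩
  rw [Measure.map_const, measure_univ]
  exact one_smul _ _

theorem BR.lim (X : MMSpace) {ε : ℝ≥0} (hε : 0 < ε) : ∃ δ : ℝ≥0, 0 < δ ∧ ∃ A : ℝ, 0 < A ∧
    ∀ Y, BR X Y δ → ∀ a (ha : 0 < a), a ≤ A → BR (Y.scale a ha) MMSpace.pt ε := by
  obtain ⟨x0⟩ := carrier_nonempty X
  obtain ⟨r, hr, hm⟩ := mass X x0 (half_pos hε)
  refine ⟨ε / 2, half_pos hε, ε / (2 * r + ε + 1), by positivity, ?_⟩
  rintro Y ⟨φ, ψ, hφ, hψ, I, hI, hIm, hd⟩ a ha haA
  have hS : MeasurableSet {x : X.carrier | r < dist x x0} :=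
    (isOpen_lt continuous_const (continuous_id.dist continuous_const)).measurableSet
  refine ⟨ψ, _, hψ.scale a ha, param_pt, I ∩ (φ ⁻¹' {x | r < dist x x0})ᶜ,
    hI.inter (hφ.1 hS).compl, ?_, ?_⟩
  · rw [compl_inter, compl_compl]
    refine (measure_union_le _ _).trans ?_
    rw [← Measure.map_apply hφ.1 hS, hφ.2]
    refine (add_le_add hIm hm).trans ?_
    rw [← ENNReal.coe_add, add_halves]
  · rintro s ⟨hs1, hs2⟩ t ⟨ht1, ht2⟩
    change |a * dist (α := Y.carrier) (ψ s) (ψ t) - dist () ()| ≤ _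
    rw [dist_self, sub_zero, abs_of_nonneg (mul_nonneg ha.le dist_nonneg)]
    have h1 := abs_le.1 (hd s hs1 t ht1)
    have h2 : dist (φ s) x0 ≤ r := not_lt.1 hs2
    have h3 : dist (φ t) x0 ≤ r := not_lt.1 ht2
    have h4 := dist_triangle_right (φ s) (φ t) x0
    have hεr : (0 : ℝ) < ε := hε
    have h5 : dist (ψ s) (ψ t) ≤ 2 * r + ε := by
      have := h1.1
      push_cast at this
      linarith
    have hpos : (0 : ℝ) < 2 * r + ε + 1 := by positivity
    calc a * dist (ψ s) (ψ t) ≤ (ε / (2 * r + ε + 1)) * (2 * r + ε + 1) := by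
          apply mul_le_mul haA (by linarith) dist_nonneg (by positivity)
      _ = ε := by field_simp

theorem CR.lim (X : MMSpace) {ε : ℝ≥0} (hε : 0 < ε) : ∃ δ : ℝ≥0, 0 < δ ∧ ∃ A : ℝ, 0 < A ∧
    ∀ Y, CR X Y δ → ∀ a (ha : 0 < a), a ≤ A → CR (Y.scale a ha) MMSpace.pt ε := by
  obtain ⟨x0⟩ := carrier_nonempty X
  obtain ⟨r, hr, hm⟩ := mass X x0 (half_pos hε)
  refine ⟨ε / 2, half_pos hε, ε / (2 * r + ε + 1), by positivity, ?_⟩
  rintro Y ⟨φ, ψ, hφ, hψ, h1, h2⟩ a ha haA
  have hS : MeasurableSet {x : X.carrier | r < dist x x0} :=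
    (isOpen_lt continuous_const (continuous_id.dist continuous_const)).measurableSet
  refine ⟨ψ, _, hψ.scale a ha, param_pt, ?_, ?_⟩
  · intro F hF
    rw [lip_iff] at hF
    have hF' : ∀ x y : Y.carrier, |F x - F y| ≤ a * dist x y := hF
    obtain ⟨f, hf, hk⟩ := h2 (fun x => a⁻¹ * F x) (by
      rw [lip_iff]
      intro x y
      rw [← mul_sub, abs_mul, abs_of_pos (inv_pos.2 ha)]
      calc a⁻¹ * |F x - F y| ≤ a⁻¹ * (a * dist x y) :=
            mul_le_mul_of_nonneg_left (hF' x y) (inv_pos.2 ha).le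
        _ = dist x y := by rw [← mul_assoc, inv_mul_cancel₀ ha.ne', one_mul])
    rw [lip_iff] at hf
    refine ⟨fun _ => a * f x0, LipschitzWith.const' _, ?_⟩
    unfold KF at *
    have hsub : {t | (ε : ℝ) < |(F ∘ ψ) t - ((fun _ => a * f x0) ∘ fun _ => ()) t|} ⊆
        {t | ((ε / 2 : ℝ≥0) : ℝ) < |((fun x => a⁻¹ * F x) ∘ ψ) t - (f ∘ φ) t|} ∪
        φ ⁻¹' {x | r < dist x x0} := by
      intro t ht
      by_contra hcon
      rw [mem_union, not_or] at hcon
      have h3 : |a⁻¹ * F (ψ t) - f (φ t)| ≤ ((ε / 2 : ℝ≥0) : ℝ) := not_lt.1 hcon.1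
      have h4 : dist (φ t) x0 ≤ r := not_lt.1 hcon.2
      have h5 := hf (φ t) x0
      have ht : (ε : ℝ) < |F (ψ t) - a * f x0| := ht
      have e : F (ψ t) - a * f x0 = a * (a⁻¹ * F (ψ t) - f x0) := by
        rw [mul_sub, ← mul_assoc, mul_inv_cancel₀ ha.ne', one_mul]
      rw [e, abs_mul, abs_of_pos ha] at ht
      have h6 := abs_sub_le (a⁻¹ * F (ψ t)) (f (φ t)) (f x0)
      have hεr : (0 : ℝ) < ε := hε
      push_cast at h3
      have h7 : |a⁻¹ * F (ψ t) - f x0| ≤ 2 * r + ε + 1 := by linarith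
      have hpos : (0 : ℝ) < 2 * r + ε + 1 := by positivity
      have : a * |a⁻¹ * F (ψ t) - f x0| ≤ ε := by
        calc a * |a⁻¹ * F (ψ t) - f x0| ≤ (ε / (2 * r + ε + 1)) * (2 * r + ε + 1) := by
              apply mul_le_mul haA h7 (abs_nonneg _) (by positivity)
          _ = ε := by field_simp
      linarith
    refine (measure_mono hsub).trans ((measure_union_le _ _).trans ?_)
    rw [← Measure.map_apply hφ.1 hS, hφ.2]
    refine (add_le_add hk hm).trans ?_
    rw [← ENNReal.coe_add, add_halves]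
  · intro f hf
    exact ⟨fun _ => f (), LipschitzWith.const' _, KF.refl _⟩

/-! ### Isomorphisms of products -/

theorem snd_cont {X : Type} [MetricSpace X] : Continuous (fun p : WithLp 1 (X × ℝ) => p.snd) :=
  continuous_snd.comp (WithLp.prod_continuous_ofLp 1 X ℝ)

theorem fst_cont {X : Type} [MetricSpace X] : Continuous (fun p : WithLp 1 (X × ℝ) => p.fst) :=
  continuous_fst.comp (WithLp.prod_continuous_ofLp 1 X ℝ)

theorem J_null (X : MMSpace) (c : ℝ) {S : Set (WithLp 1 (X.carrier × ℝ))} (hS : MeasurableSet S) :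
    (X.J c).mu S = (X.mu.prod two) (jm c ⁻¹' S) :=
  Measure.map_apply (jm_meas c) hS

theorem iso_J {X Y : MMSpace} (h : MMIso X Y) (c : ℝ) : MMIso (X.J c) (Y.J c) := by
  obtain ⟨F, hF, hb, hi, hm⟩ := h
  set S : Set (WithLp 1 (X.carrier × ℝ)) := {p | p.fst ∈ X.mu.support} with hSdef
  have hS : IsClosed S := Measure.isClosed_support.preimage fst_cont
  have hFm : Measurable (fun p : WithLp 1 (X.carrier × ℝ) =>
      (WithLp.toLp 1 (F p.fst, p.snd) : WithLp 1 (Y.carrier × ℝ))) := by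
    have h1 : Measurable (fun p : WithLp 1 (X.carrier × ℝ) => (F p.fst, p.snd)) :=
      (hF.comp fst_cont.measurable).prodMk snd_cont.measurable
    exact (WithLp.prod_continuous_toLp 1 Y.carrier ℝ).measurable.comp h1
  refine MMIso.of_closed (X := X.J c) (Y := Y.J c) S hS ?_
    (fun p : WithLp 1 (X.carrier × ℝ) =>
      (WithLp.toLp 1 (F p.fst, p.snd) : WithLp 1 (Y.carrier × ℝ))) hFm ?_ ?_
  · refine (J_null X c hS.measurableSet.compl).trans ?_
    have e : jm c ⁻¹' Sᶜ = X.mu.supportᶜ ×ˢ (univ : Set ℝ) := by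
      ext p
      simp [hSdef, jm]
    rw [e, Measure.prod_prod, Measure.measure_compl_support, zero_mul]
  · intro p hp q hq
    change dist (WithLp.toLp 1 (F p.fst, p.snd)) (WithLp.toLp 1 (F q.fst, q.snd)) = _
    rw [J_dist, hi _ hp _ hq, ← J_dist]
    rfl
  · change ((X.mu.prod two).map (jm c)).map _ = (Y.mu.prod two).map (jm c)
    rw [Measure.map_map hFm (jm_meas c), ← hm]
    have e : ((fun p : WithLp 1 (X.carrier × ℝ) =>
      (WithLp.toLp 1 (F p.fst, p.snd) : WithLp 1 (Y.carrier × ℝ))) ∘ jm c)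
      = jm c ∘ Prod.map F id := rfl
    rw [e, ← Measure.map_map (jm_meas c) (hF.prodMap measurable_id),
      ← Measure.map_prod_map _ _ hF measurable_id, Measure.map_id]

theorem iso_J_scale (X : MMSpace) (c t : ℝ) (ht : 0 < t) :
    MMIso ((X.J c).scale t ht) ((X.scale t ht).J (t * c)) := by
  set F : WithLp 1 (X.carrier × ℝ) → WithLp 1 (X.carrier × ℝ) :=
    fun p => WithLp.toLp 1 (p.fst, t * p.snd) with hFdef
  have hFc : Continuous F := by
    have h1 : Continuous (fun p : WithLp 1 (X.carrier × ℝ) => (p.fst, t * p.snd)) :=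
      fst_cont.prodMk (continuous_const.mul snd_cont)
    exact (WithLp.prod_continuous_toLp 1 X.carrier ℝ).comp h1
  have hFm : Measurable F := hFc.measurable
  refine MMIso.of_isometry (X := (X.J c).scale t ht) (Y := (X.scale t ht).J (t * c)) F ?_ ?_ ?_
  · exact hFm
  · intro p q
    have h1 := @J_dist (X.scale t ht).carrier (X.scale t ht).metric p.fst q.fst (t * p.snd)
      (t * q.snd)
    refine h1.trans ?_
    change t * dist (α := X.carrier) p.fst q.fst + |t * p.snd - t * q.snd| =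
      t * dist (α := WithLp 1 (X.carrier × ℝ)) p q
    have h2 : dist (α := WithLp 1 (X.carrier × ℝ)) p q = dist p.fst q.fst + |p.snd - q.snd| :=
      J_dist p.fst q.fst p.snd q.snd
    rw [h2, ← mul_sub, abs_mul, abs_of_pos ht]; ring
  · change ((X.mu.prod two).map (jm c)).map F = (X.mu.prod two).map (jm (t * c))
    rw [Measure.map_map hFm (jm_meas c)]
    congr 1
    funext p
    simp only [Function.comp, hFdef, jm]
    congr 2
    exact (mul_assoc t c p.2).symm

theorem iso_J_zero (X : MMSpace) : MMIso (X.J 0) X := by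
  set S : Set (WithLp 1 (X.carrier × ℝ)) := {p | p.snd = 0} with hSdef
  have hS : IsClosed S := isClosed_eq snd_cont continuous_const
  have hfm : Measurable (fun p : WithLp 1 (X.carrier × ℝ) => p.fst) := fst_cont.measurable
  refine MMIso.of_closed (X := X.J 0) (Y := X) S hS ?_
    (fun p : WithLp 1 (X.carrier × ℝ) => p.fst) hfm ?_ ?_
  · refine (J_null X 0 hS.measurableSet.compl).trans ?_
    have e : jm 0 ⁻¹' Sᶜ = (∅ : Set (X.carrier × ℝ)) := by
      ext p
      simp [hSdef, jm]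
    rw [e, measure_empty]
  · intro p hp q hq
    change dist (α := X.carrier) p.fst q.fst = dist (α := WithLp 1 (X.carrier × ℝ)) p q
    have h2 : dist (α := WithLp 1 (X.carrier × ℝ)) p q = dist p.fst q.fst + |p.snd - q.snd| :=
      J_dist p.fst q.fst p.snd q.snd
    have hp : p.snd = 0 := hp
    have hq : q.snd = 0 := hq
    rw [h2, hp, hq]; simp
  · change ((X.mu.prod two).map (jm 0)).map _ = X.mu
    rw [Measure.map_map hfm (jm_meas 0)]
    exact Measure.fst_prod

/-! ### Trivial spaces -/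

/-- The measure is a point mass. -/
def IsTriv (X : MMSpace) : Prop := ∃ x, X.mu {x}ᶜ = 0

theorem triv_iso {X Y : MMSpace} (h : MMIso X Y) : IsTriv X ↔ IsTriv Y := by
  obtain ⟨F, hF, hb, hi, hm⟩ := h
  constructor
  · rintro ⟨x, hx⟩
    refine ⟨F x, ?_⟩
    rw [← hm, Measure.map_apply hF (measurableSet_singleton _).compl]
    refine measure_mono_null ?_ hx
    intro y hy hyx
    exact hy (by rw [hyx]; rfl)
  · rintro ⟨y, hy⟩
    have hsub : Y.mu.support ⊆ {y} :=
      Measure.support_subset_of_isClosed isClosed_singleton hy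
    obtain ⟨x, hx⟩ := Measure.nonempty_support (μ := X.mu) (IsProbabilityMeasure.ne_zero _)
    refine ⟨x, measure_mono_null ?_ (Measure.measure_compl_support (μ := X.mu))⟩
    intro z hz hzs
    apply hz
    apply hb.2.1 hzs hx
    have h1 := hsub (hb.1 hzs)
    have h2 := hsub (hb.1 hx)
    rw [mem_singleton_iff] at h1 h2
    rw [h1, h2]

theorem triv_pt : IsTriv MMSpace.pt := ⟨(), by
  have : ({()}ᶜ : Set Unit) = ∅ := by ext x; simp
  change MMSpace.pt.mu ({()}ᶜ : Set Unit) = 0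
  rw [this]; exact measure_empty⟩

theorem iso_pt {X : MMSpace} (h : IsTriv X) : MMIso X MMSpace.pt := by
  obtain ⟨x, hx⟩ := h
  refine MMIso.of_closed (X := X) (Y := MMSpace.pt) {x} isClosed_singleton hx
    (fun _ => ()) measurable_const ?_ ?_
  · intro y hy z hz
    rw [mem_singleton_iff] at hy hz
    rw [hy, hz]
    exact (dist_self (α := MMSpace.pt.carrier) ()).trans (dist_self x).symm
  · rw [Measure.map_const, measure_univ]
    exact one_smul _ _

theorem not_triv_J {X : MMSpace} (h : ¬ IsTriv X) (c : ℝ) : ¬ IsTriv (X.J c) := by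
  rintro ⟨p, hp⟩
  apply h
  refine ⟨(p : WithLp 1 (X.carrier × ℝ)).fst, ?_⟩
  have hp' : (X.mu.prod two) (jm c ⁻¹' ({p}ᶜ : Set (WithLp 1 (X.carrier × ℝ)))) = 0 :=
    (J_null X c (S := ({p}ᶜ : Set (WithLp 1 (X.carrier × ℝ))))
    (measurableSet_singleton (α := WithLp 1 (X.carrier × ℝ)) p).compl).symm.trans hp
  have h1 : (X.mu.prod two) (({(p : WithLp 1 (X.carrier × ℝ)).fst}ᶜ : Set X.carrier) ×ˢ univ) = 0 := by
    refine measure_mono_null ?_ hp'
    rintro ⟨x, b⟩ ⟨hx, -⟩ hxb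
    apply hx
    have hxb : jm c (x, b) = p := hxb
    rw [← hxb]
    rfl
  rw [Measure.prod_prod, measure_univ, mul_one] at h1
  exact h1

theorem not_triv_P : ¬ IsTriv (MMSpace.pt.J 1) := by
  rintro ⟨p, hp⟩
  have hp' : (MMSpace.pt.mu.prod two)
      (jm 1 ⁻¹' ({p}ᶜ : Set (WithLp 1 (MMSpace.pt.carrier × ℝ)))) = 0 :=
    (J_null MMSpace.pt 1 (S := ({p}ᶜ : Set (WithLp 1 (MMSpace.pt.carrier × ℝ))))
    (measurableSet_singleton (α := WithLp 1 (MMSpace.pt.carrier × ℝ)) p).compl).symm.trans hp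
  set v : ℝ := (p : WithLp 1 (MMSpace.pt.carrier × ℝ)).snd with hv
  have h1 : (MMSpace.pt.mu.prod two) ((univ : Set MMSpace.pt.carrier) ×ˢ ({v}ᶜ : Set ℝ)) = 0 := by
    refine measure_mono_null ?_ hp'
    rintro ⟨x, b⟩ ⟨-, hb⟩ hxb
    apply hb
    have hxb : jm 1 (x, b) = p := hxb
    rw [mem_singleton_iff, hv, ← hxb]
    simp [jm]
  rw [Measure.prod_prod, measure_univ, one_mul] at h1
  have hm : MeasurableSet ({v}ᶜ : Set ℝ) := (measurableSet_singleton v).compl
  simp only [two, Measure.coe_add, Measure.coe_smul, Pi.add_apply, Pi.smul_apply,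
    Measure.dirac_apply' _ hm, smul_eq_mul, add_eq_zero] at h1
  obtain ⟨h2, h3⟩ := h1
  have e1 : v = 0 := by
    by_contra hne
    have : (0 : ℝ) ∈ ({v}ᶜ : Set ℝ) := fun h => hne h.symm
    simp [indicator_of_mem this] at h2
  have e2 : v = 1 := by
    by_contra hne
    have : (1 : ℝ) ∈ ({v}ᶜ : Set ℝ) := fun h => hne h.symm
    simp [indicator_of_mem this] at h3
  rw [e1] at e2
  exact zero_ne_one e2

end Pool.Agent.Q151.MM
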