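import Pool.Agent.Q151.MM.Close

/-!
# Estimates for scaling and for products with two-point spaces
-/

open Set MeasureTheory Filter Topology ProbabilityTheory
open scoped ENNReal NNReal

namespace Pool.Agent.Q151.MM

/-! ### Scaling -/

theorem IsParam.scale {X : MMSpace} {φ : ℝ → X.carrier} (h : IsParam X φ) (t : ℝ) (ht : 0 < t) :
    IsParam (X.scale t ht) φ := h

/-- The factor. -/
noncomputable def fac (t : ℝ) : ℝ≥0 := max 1 t.toNNReal

theorem one_le_fac (t : ℝ) : 1 ≤ fac t := le_max_left _ _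

theorem le_fac (t : ℝ) : t ≤ fac t := by
  have h1 : t.toNNReal ≤ fac t := le_max_right _ _
  have h2 := Real.le_coe_toNNReal t
  exact h2.trans (by exact_mod_cast h1)

theorem Half.scale {X Y : MMSpace} {φ : ℝ → X.carrier} {ψ : ℝ → Y.carrier} {ε : ℝ≥0}
    (h : Half X Y φ ψ ε) (t : ℝ) (ht : 0 < t) :
    Half (X.scale t ht) (Y.scale t ht) φ ψ (fac t * ε) := by
  intro F hF
  rw [lip_iff] at hF
  have hF' : ∀ x y : X.carrier, |F x - F y| ≤ t * dist x y := hF
  obtain ⟨g, hg, hk⟩ := h (fun x => t⁻¹ * F x) (by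
    rw [lip_iff]
    intro x y
    rw [← mul_sub, abs_mul, abs_of_pos (inv_pos.2 ht)]
    calc t⁻¹ * |F x - F y| ≤ t⁻¹ * (t * dist x y) :=
          mul_le_mul_of_nonneg_left (hF' x y) (inv_pos.2 ht).le
      _ = dist x y := by rw [← mul_assoc, inv_mul_cancel₀ ht.ne', one_mul])
  rw [lip_iff] at hg
  refine ⟨fun y => t * g y, ?_, ?_⟩
  · rw [lip_iff]
    intro x y
    change |t * g x - t * g y| ≤ t * dist (α := Y.carrier) x y
    rw [← mul_sub, abs_mul, abs_of_pos ht]
    exact mul_le_mul_of_nonneg_left (hg x y) ht.le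
  · unfold KF at *
    refine (measure_mono ?_).trans (hk.trans ?_)
    · intro s hs
      change (ε : ℝ) < |t⁻¹ * F (φ s) - g (ψ s)|
      have hs : ((fac t * ε : ℝ≥0) : ℝ) < |F (φ s) - t * g (ψ s)| := hs
      push_cast at hs
      have e : F (φ s) - t * g (ψ s) = t * (t⁻¹ * F (φ s) - g (ψ s)) := by
        rw [mul_sub, ← mul_assoc, mul_inv_cancel₀ ht.ne', one_mul]
      rw [e, abs_mul, abs_of_pos ht] at hs
      have h1 : t * ε ≤ fac t * ε := mul_le_mul_of_nonneg_right (le_fac t) ε.2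
      exact lt_of_mul_lt_mul_left (h1.trans_lt hs) ht.le
    · have : ε ≤ fac t * ε := le_mul_of_one_le_left zero_le (one_le_fac t)
      exact_mod_cast this

theorem CR.scale {X Y : MMSpace} {ε : ℝ≥0} (h : CR X Y ε) (t : ℝ) (ht : 0 < t) :
    CR (X.scale t ht) (Y.scale t ht) (fac t * ε) := by
  obtain ⟨φ, ψ, hφ, hψ, h1, h2⟩ := h
  exact ⟨φ, ψ, hφ.scale t ht, hψ.scale t ht, h1.scale t ht, h2.scale t ht⟩

theorem BR.scale {X Y : MMSpace} {ε : ℝ≥0} (h : BR X Y ε) (t : ℝ) (ht : 0 < t) :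
    BR (X.scale t ht) (Y.scale t ht) (fac t * ε) := by
  obtain ⟨φ, ψ, hφ, hψ, I, hI, hm, hd⟩ := h
  refine ⟨φ, ψ, hφ.scale t ht, hψ.scale t ht, I, hI, hm.trans ?_, ?_⟩
  · have : ε ≤ fac t * ε := le_mul_of_one_le_left zero_le (one_le_fac t)
    exact_mod_cast this
  · intro s hs u hu
    change |t * dist (α := X.carrier) (φ s) (φ u) - t * dist (α := Y.carrier) (ψ s) (ψ u)| ≤ _
    rw [← mul_sub, abs_mul, abs_of_pos ht]
    push_cast
    exact mul_le_mul (le_fac t) (hd s hs u hu) (abs_nonneg _) (fac t).2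

/-! ### Products -/

theorem exists_eta : ∃ η : ℝ → ℝ × ℝ, Measurable η ∧ lam.map η = lam.prod two :=
  exists_map _

/-- A measure-preserving map `[0,1) → [0,1) × {0,1}`. -/
noncomputable def eta : ℝ → ℝ × ℝ := Classical.choose exists_eta

theorem eta_meas : Measurable eta := (Classical.choose_spec exists_eta).1
theorem eta_map : lam.map eta = lam.prod two := (Classical.choose_spec exists_eta).2

theorem eta_fst {S : Set ℝ} : lam {t | (eta t).1 ∈ S} ≤ lam S := by
  have h1 : lam.map (fun t => (eta t).1) = lam := by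
    have : lam.map (fun t => (eta t).1) = (lam.map eta).map Prod.fst := by
      rw [Measure.map_map measurable_fst eta_meas]; rfl
    rw [this, eta_map]
    exact Measure.fst_prod
  have h2 := Measure.le_map_apply (μ := lam) (measurable_fst.comp eta_meas).aemeasurable S
  have h3 : lam.map (Prod.fst ∘ eta) S = lam S := by
    rw [show (Prod.fst ∘ eta) = fun t => (eta t).1 from rfl, h1]
  rw [h3] at h2
  exact h2

theorem eta_snd : ∀ᵐ t ∂lam, (eta t).2 = 0 ∨ (eta t).2 = 1 := by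
  have h1 : lam.map (fun t => (eta t).2) = two := by
    have : lam.map (fun t => (eta t).2) = (lam.map eta).map Prod.snd := by
      rw [Measure.map_map measurable_snd eta_meas]; rfl
    rw [this, eta_map]
    exact Measure.snd_prod
  have h2 := two_ae
  rw [← h1] at h2
  exact ae_of_ae_map (measurable_snd.comp eta_meas).aemeasurable h2

/-- The parameter of a product. -/
noncomputable def Jp {X : Type} (φ : ℝ → X) (c : ℝ) (t : ℝ) : WithLp 1 (X × ℝ) :=
  WithLp.toLp 1 (φ (eta t).1, c * (eta t).2)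

theorem IsParam.J {X : MMSpace} {φ : ℝ → X.carrier} (h : IsParam X φ) (c : ℝ) :
    IsParam (X.J c) (Jp φ c) := by
  have hφ : Measurable φ := h.1
  have h1 : Measurable (Prod.map φ (id : ℝ → ℝ)) := hφ.prodMap measurable_id
  have e : (Jp φ c : ℝ → WithLp 1 (X.carrier × ℝ)) = jm c ∘ (Prod.map φ id ∘ eta) := rfl
  constructor
  · change Measurable (Jp φ c : ℝ → WithLp 1 (X.carrier × ℝ))
    rw [e]
    exact (jm_meas c).comp (h1.comp eta_meas)
  · change lam.map (Jp φ c : ℝ → WithLp 1 (X.carrier × ℝ)) = Measure.map (jm c) (X.mu.prod two)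
    rw [e, ← Measure.map_map (jm_meas c) (h1.comp eta_meas), ← Measure.map_map h1 eta_meas,
      eta_map, ← Measure.map_prod_map _ _ hφ measurable_id, h.2, Measure.map_id]

theorem BR.J {X Y : MMSpace} {ε δ : ℝ≥0} (h : BR X Y ε) {c c' : ℝ} (hc : |c - c'| ≤ δ) :
    BR (X.J c) (Y.J c') (2 * ε + δ) := by
  obtain ⟨φ, ψ, hφ, hψ, I, hI, hm, hd⟩ := h
  refine ⟨Jp φ c, Jp ψ c', hφ.J c, hψ.J c', {t | (eta t).1 ∈ I} ∩ {t | (eta t).2 = 0 ∨ (eta t).2 = 1},
    ?_, ?_, ?_⟩
  · refine ((measurable_fst.comp eta_meas) hI).inter ?_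
    have hm : MeasurableSet {b : ℝ | b = 0 ∨ b = 1} := by
      have : {b : ℝ | b = 0 ∨ b = 1} = {0} ∪ {1} := by ext; simp [or_comm]
      rw [this]
      exact (measurableSet_singleton _).union (measurableSet_singleton _)
    exact (measurable_snd.comp eta_meas) hm
  · rw [compl_inter]
    refine (measure_union_le _ _).trans ?_
    have h0 : lam {t | (eta t).2 = 0 ∨ (eta t).2 = 1}ᶜ = 0 := eta_snd
    rw [h0, add_zero]
    have h1 : lam {t | (eta t).1 ∈ Iᶜ} ≤ lam Iᶜ := eta_fst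
    refine h1.trans (hm.trans ?_)
    have : ε ≤ 2 * ε + δ := by
      have : ε ≤ 2 * ε := le_mul_of_one_le_left zero_le (by norm_num)
      exact this.trans (le_add_of_nonneg_right zero_le)
    exact_mod_cast this
  · rintro s ⟨hs1, hs2⟩ t ⟨ht1, ht2⟩
    change |dist (WithLp.toLp 1 (φ (eta s).1, c * (eta s).2)) (WithLp.toLp 1 (φ (eta t).1, c * (eta t).2))
      - dist (WithLp.toLp 1 (ψ (eta s).1, c' * (eta s).2))
        (WithLp.toLp 1 (ψ (eta t).1, c' * (eta t).2))| ≤ _
    rw [J_dist, J_dist]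
    have h1 := hd _ hs1 _ ht1
    have h2 : |(|c * (eta s).2 - c * (eta t).2| - |c' * (eta s).2 - c' * (eta t).2|)| ≤ |c - c'| := by
      refine (abs_abs_sub_abs_le_abs_sub _ _).trans ?_
      have e : c * (eta s).2 - c * (eta t).2 - (c' * (eta s).2 - c' * (eta t).2)
        = (c - c') * ((eta s).2 - (eta t).2) := by ring
      rw [e, abs_mul]
      have h3 : |(eta s).2 - (eta t).2| ≤ 1 := by
        rcases hs2 with hs2 | hs2 <;> rcases ht2 with ht2 | ht2 <;> rw [hs2, ht2] <;> norm_num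
      exact mul_le_of_le_one_right (abs_nonneg _) h3
    push_cast
    have e : dist (φ (eta s).1) (φ (eta t).1) + |c * (eta s).2 - c * (eta t).2|
      - (dist (ψ (eta s).1) (ψ (eta t).1) + |c' * (eta s).2 - c' * (eta t).2|)
      = (dist (φ (eta s).1) (φ (eta t).1) - dist (ψ (eta s).1) (ψ (eta t).1)) +
        (|c * (eta s).2 - c * (eta t).2| - |c' * (eta s).2 - c' * (eta t).2|) := by ring
    rw [e]
    refine (abs_add_le _ _).trans ?_
    have := ε.2
    change (0 : ℝ) ≤ ε at this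
    linarith

theorem clamp_close {f0 f1 g0 g1 a b e d : ℝ} (h0 : |f0 - g0| ≤ e) (h1 : |f1 - g1| ≤ e)
    (hf : |f0 - f1| ≤ a) (hab : |a - b| ≤ d) :
    |f1 - max (g0 - b) (min g1 (g0 + b))| ≤ e + d := by
  rw [abs_le] at *
  constructor
  · have : max (g0 - b) (min g1 (g0 + b)) ≤ f1 + (e + d) :=
      max_le (by linarith [h0.1, h0.2, hf.1, hf.2, hab.1, hab.2])
        ((min_le_left _ _).trans (by linarith [h1.1, h1.2, hab.1, hab.2]))
    linarith
  · have : f1 - (e + d) ≤ max (g0 - b) (min g1 (g0 + b)) := by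
      refine le_trans (le_min ?_ ?_) (le_max_right _ _)
      · linarith [h1.1, h1.2, hab.1, hab.2]
      · linarith [h0.1, h0.2, hf.1, hf.2, hab.1, hab.2]
    linarith

theorem clamp_lip {g0 g1 g0' g1' b D : ℝ} (h0 : |g0 - g0'| ≤ D) (h1 : |g1 - g1'| ≤ D) :
    |max (g0 - b) (min g1 (g0 + b)) - max (g0' - b) (min g1' (g0' + b))| ≤ D := by
  refine (abs_max_sub_max_le_max _ _ _ _).trans (max_le ?_ ?_)
  · have e : g0 - b - (g0' - b) = g0 - g0' := by ring
    rw [e]; exact h0
  · refine (abs_min_sub_min_le_max _ _ _ _).trans (max_le h1 ?_)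
    have e : g0 + b - (g0' + b) = g0 - g0' := by ring
    rw [e]; exact h0

theorem clamp_abs {g0 g1 b : ℝ} (hb : 0 ≤ b) : |max (g0 - b) (min g1 (g0 + b)) - g0| ≤ b := by
  rw [abs_le]
  constructor
  · have := le_max_left (g0 - b) (min g1 (g0 + b))
    linarith
  · have : max (g0 - b) (min g1 (g0 + b)) ≤ g0 + b :=
      max_le (by linarith) (min_le_right _ _)
    linarith

theorem Half.J {X Y : MMSpace} {φ : ℝ → X.carrier} {ψ : ℝ → Y.carrier} {ε δ : ℝ≥0}
    (h : Half X Y φ ψ ε) {c c' : ℝ} (hc : |c - c'| ≤ δ) :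
    Half (X.J c) (Y.J c') (Jp φ c) (Jp ψ c') (2 * ε + δ) := by
  intro F hF
  rw [lip_iff] at hF
  have hF' : ∀ (x y : X.carrier) (a b : ℝ),
      |F (WithLp.toLp 1 (x, a)) - F (WithLp.toLp 1 (y, b))| ≤ dist x y + |a - b| := by
    intro x y a b
    rw [← J_dist]
    exact hF _ _
  obtain ⟨g0, hg0, k0⟩ := h (fun x => F (WithLp.toLp 1 (x, 0))) (by
    rw [lip_iff]; intro x y; simpa using hF' x y 0 0)
  obtain ⟨g1, hg1, k1⟩ := h (fun x => F (WithLp.toLp 1 (x, c))) (by
    rw [lip_iff]; intro x y; simpa using hF' x y c c)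
  rw [lip_iff] at hg0 hg1
  set gg : Y.carrier → ℝ := fun y => max (g0 y - |c'|) (min (g1 y) (g0 y + |c'|)) with hgg
  set L : ℝ → ℝ := fun r => max 0 (min 1 (r / c')) with hL
  have hL0 : ∀ r, 0 ≤ L r := fun r => le_max_left _ _
  have hL1 : ∀ r, L r ≤ 1 := fun r => max_le zero_le_one (min_le_left _ _)
  have hLL : ∀ r r', |L r - L r'| ≤ |r - r'| / |c'| := by
    intro r r'
    refine (abs_max_sub_max_le_max _ _ _ _).trans (max_le (by simp; positivity) ?_)
    refine (abs_min_sub_min_le_max _ _ _ _).trans (max_le (by simp; positivity) ?_)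
    rw [← sub_div, abs_div]
  have hgl : ∀ x y, |gg x - gg y| ≤ dist x y := fun x y => clamp_lip (hg0 x y) (hg1 x y)
  have hga : ∀ y, |gg y - g0 y| ≤ |c'| := fun y => clamp_abs (abs_nonneg _)
  set G : WithLp 1 (Y.carrier × ℝ) → ℝ := fun p => g0 p.fst + L p.snd * (gg p.fst - g0 p.fst)
    with hG
  have hGl : ∀ (x y : Y.carrier) (a b : ℝ),
      |G (WithLp.toLp 1 (x, a)) - G (WithLp.toLp 1 (y, b))| ≤ dist x y + |a - b| := by
    intro x y a b
    have e1 : G (WithLp.toLp 1 (x, a)) = g0 x + L a * (gg x - g0 x) := rfl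
    have e2 : G (WithLp.toLp 1 (y, b)) = g0 y + L b * (gg y - g0 y) := rfl
    have e : G (WithLp.toLp 1 (x, a)) - G (WithLp.toLp 1 (y, b)) =
      ((1 - L a) * (g0 x - g0 y) + L a * (gg x - gg y)) + (L a - L b) * (gg y - g0 y) := by
      rw [e1, e2]; ring
    rw [e]
    refine (abs_add_le _ _).trans (add_le_add ?_ ?_)
    · refine (abs_add_le _ _).trans ?_
      rw [abs_mul, abs_mul, abs_of_nonneg (sub_nonneg.2 (hL1 a)), abs_of_nonneg (hL0 a)]
      have h1 := mul_le_mul_of_nonneg_left (hg0 x y) (sub_nonneg.2 (hL1 a))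
      have h2 := mul_le_mul_of_nonneg_left (hgl x y) (hL0 a)
      linarith
    · rw [abs_mul]
      rcases eq_or_ne c' 0 with h0 | h0
      · have := hga y
        rw [h0, abs_zero] at this
        have h2 : |gg y - g0 y| = 0 := le_antisymm this (abs_nonneg _)
        rw [h2, mul_zero]
        exact abs_nonneg _
      · have hc0 : 0 < |c'| := abs_pos.2 h0
        calc |L a - L b| * |gg y - g0 y| ≤ (|a - b| / |c'|) * |c'| :=
              mul_le_mul (hLL a b) (hga y) (abs_nonneg _) (by positivity)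
          _ = |a - b| := by field_simp
  refine ⟨G, ?_, ?_⟩
  · rw [lip_iff]
    intro p q
    have := hGl p.fst q.fst p.snd q.snd
    rw [← J_dist] at this
    exact this
  · unfold KF at *
    have hsub : {t | ((2 * ε + δ : ℝ≥0) : ℝ) < |(F ∘ Jp φ c) t - (G ∘ Jp ψ c') t|} ⊆
        ({t | (eta t).1 ∈ {u | (ε : ℝ) < |F (WithLp.toLp 1 (φ u, 0)) - g0 (ψ u)|}} ∪
        {t | (eta t).1 ∈ {u | (ε : ℝ) < |F (WithLp.toLp 1 (φ u, c)) - g1 (ψ u)|}}) ∪
        {t | (eta t).2 = 0 ∨ (eta t).2 = 1}ᶜ := by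
      intro t ht
      by_contra hcon
      rw [mem_union, mem_union, not_or, not_or, mem_compl_iff, not_not] at hcon
      obtain ⟨⟨hc0, hc1⟩, hb⟩ := hcon
      simp only [mem_setOf_eq, not_lt] at hc0 hc1 hb
      have ht : ((2 * ε + δ : ℝ≥0) : ℝ) <
        |F (WithLp.toLp 1 (φ (eta t).1, c * (eta t).2)) -
          (g0 (ψ (eta t).1) + L (c' * (eta t).2) * (gg (ψ (eta t).1) - g0 (ψ (eta t).1)))| := ht
      push_cast at ht
      have hε : (0 : ℝ) ≤ ε := ε.2
      have hδ : (0 : ℝ) ≤ δ := δ.2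
      rcases hb with hb | hb
      · rw [hb, mul_zero, mul_zero] at ht
        have : L 0 = 0 := by simp [hL]
        rw [this, zero_mul, add_zero] at ht
        linarith
      · rw [hb, mul_one, mul_one] at ht
        have e : g0 (ψ (eta t).1) + L c' * (gg (ψ (eta t).1) - g0 (ψ (eta t).1))
            = gg (ψ (eta t).1) := by
          rcases eq_or_ne c' 0 with h0 | h0
          · have h3 := hga (ψ (eta t).1)
            rw [h0, abs_zero] at h3
            have h4 : gg (ψ (eta t).1) - g0 (ψ (eta t).1) = 0 :=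
              abs_eq_zero.1 (le_antisymm h3 (abs_nonneg _))
            rw [h4]; linarith
          · have : L c' = 1 := by simp [hL, div_self h0]
            rw [this]; ring
        rw [e] at ht
        have h5 := clamp_close (b := |c'|) (d := δ) hc0 hc1
          (a := |c|) (by simpa using hF' (φ (eta t).1) (φ (eta t).1) 0 c)
          ((abs_abs_sub_abs_le_abs_sub _ _).trans hc)
        linarith
    refine (measure_mono hsub).trans ((measure_union_le _ _).trans ?_)
    have h0 : lam {t | (eta t).2 = 0 ∨ (eta t).2 = 1}ᶜ = 0 := eta_snd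
    rw [h0, add_zero]
    refine (measure_union_le _ _).trans ?_
    refine (add_le_add (eta_fst.trans k0) (eta_fst.trans k1)).trans ?_
    rw [← two_mul]
    push_cast
    exact le_add_of_nonneg_right zero_le

theorem CR.J {X Y : MMSpace} {ε δ : ℝ≥0} (h : CR X Y ε) {c c' : ℝ} (hc : |c - c'| ≤ δ) :
    CR (X.J c) (Y.J c') (2 * ε + δ) := by
  obtain ⟨φ, ψ, hφ, hψ, h1, h2⟩ := h
  exact ⟨Jp φ c, Jp ψ c', hφ.J c, hψ.J c', h1.J hc, h2.J (by rw [abs_sub_comm]; exact hc)⟩

end Pool.Agent.Q151.MM
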