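import Pool.Agent.Q151.MM.Defs

/-!
# Existence and gluing of parameters
-/

open Set MeasureTheory Filter Topology ProbabilityTheory
open scoped ENNReal NNReal

namespace Pool.Agent.Q151.MM

/-- Every Borel probability measure on a standard Borel space is an image of `lam`. -/
theorem exists_map {Y : Type} [MeasurableSpace Y] [StandardBorelSpace Y] (μ : Measure Y)
    [IsProbabilityMeasure μ] : ∃ φ : ℝ → Y, Measurable φ ∧ lam.map φ = μ := by
  haveI : Nonempty Y := by
    by_contra h
    rw [not_nonempty_iff] at h
    have : μ univ = 0 := by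
      rw [Set.eq_empty_of_isEmpty (univ : Set Y)]; simp
    simp at this
  obtain ⟨f, hf, hfμ⟩ := MeasureTheory.Measure.exists_measurable_map_eq μ
  have hp : Measurable (fun t : ℝ => f (Set.projIcc 0 1 zero_le_one t)) :=
    hf.comp continuous_projIcc.measurable
  refine ⟨_, hp, ?_⟩
  have h1 : (volume : Measure unitInterval).map Subtype.val = volume.restrict (Icc (0 : ℝ) 1) :=
    map_comap_subtype_coe measurableSet_Icc volume
  have h2 : lam = volume.restrict (Icc (0 : ℝ) 1) := by
    unfold lam
    exact (restrict_Ico_eq_restrict_Icc)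
  rw [h2, ← h1, Measure.map_map hp measurable_subtype_coe, ← hfμ]
  congr 1
  funext x
  simp [Function.comp]

theorem exists_param (X : MMSpace) : ∃ φ, IsParam X φ := exists_map X.mu

/-- Two maps with the same law agree after measure-preserving changes of variable. -/
theorem glue {Y : Type} [MeasurableSpace Y] [StandardBorelSpace Y] {ψ ψ' : ℝ → Y}
    (h : Measurable ψ) (h' : Measurable ψ') (heq : lam.map ψ = lam.map ψ') :
    ∃ α β : ℝ → ℝ, Measurable α ∧ Measurable β ∧ lam.map α = lam ∧ lam.map β = lam ∧
      ∀ᵐ t ∂lam, ψ (α t) = ψ' (β t) := by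
  have hp' : Measurable (fun t : ℝ => (ψ' t, t)) := h'.prodMk measurable_id
  set κ : Kernel Y ℝ := condDistrib id ψ' lam with hκ
  have hcd : (lam.map ψ') ⊗ₘ κ = lam.map (fun t => (ψ' t, t)) := by
    rw [hκ]
    exact compProd_map_condDistrib (Y := id) (X := ψ') aemeasurable_id
  set ν : Measure (ℝ × ℝ) := lam ⊗ₘ (κ.comap ψ h) with hν
  have hq : Measurable (fun p : ℝ × ℝ => (ψ p.1, p.2)) :=
    (h.comp measurable_fst).prodMk measurable_snd
  have key : ν.map (fun p => (ψ p.1, p.2)) = lam.map (fun t => (ψ' t, t)) := by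
    rw [← hcd, ← heq]
    ext A hA
    rw [Measure.map_apply hq hA, hν, Measure.compProd_apply (hq hA), Measure.compProd_apply hA,
      lintegral_map (Kernel.measurable_kernel_prodMk_left hA) h]
    rfl
  have hfst : ν.map Prod.fst = lam := by
    have := Measure.fst_compProd lam (κ.comap ψ h)
    exact this
  have hsnd : ν.map Prod.snd = lam := by
    have e1 : ν.map Prod.snd = (ν.map (fun p => (ψ p.1, p.2))).map Prod.snd := by
      rw [Measure.map_map measurable_snd hq]; rfl
    rw [e1, key, Measure.map_map measurable_snd hp']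
    have : (Prod.snd ∘ fun t => (ψ' t, t)) = id := rfl
    rw [this, Measure.map_id]
  have hD : MeasurableSet {q : Y × ℝ | q.1 = ψ' q.2} :=
    measurableSet_eq_fun measurable_fst (h'.comp measurable_snd)
  have hae : ∀ᵐ p ∂ν, ψ p.1 = ψ' p.2 := by
    have h1 : (ν.map (fun p => (ψ p.1, p.2))) {q : Y × ℝ | q.1 = ψ' q.2}ᶜ = 0 := by
      rw [key, Measure.map_apply hp' hD.compl]
      simp
    rw [Measure.map_apply hq hD.compl] at h1
    exact h1
  haveI : IsProbabilityMeasure ν := by rw [hν]; infer_instance
  obtain ⟨f, hf, hfν⟩ := exists_map ν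
  refine ⟨fun t => (f t).1, fun t => (f t).2, measurable_fst.comp hf, measurable_snd.comp hf,
    ?_, ?_, ?_⟩
  · have : lam.map (fun t => (f t).1) = (lam.map f).map Prod.fst := by
      rw [Measure.map_map measurable_fst hf]; rfl
    rw [this, hfν, hfst]
  · have : lam.map (fun t => (f t).2) = (lam.map f).map Prod.snd := by
      rw [Measure.map_map measurable_snd hf]; rfl
    rw [this, hfν, hsnd]
  · rw [← hfν] at hae
    exact ae_of_ae_map hf.aemeasurable hae

end Pool.Agent.Q151.MM
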