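import Pool.Agent.Q151.MM.Defs

/-!
# The space of mm-spaces with the concentration topology is not `σ`-compact
-/

open Set MeasureTheory Filter Topology
open scoped ENNReal NNReal

namespace Pool.Agent.Q151.MM

/-- observable diameter at most `2 r` at level `κ` -/
def Obs (X : MMSpace) (κ : ℝ≥0∞) (r : ℝ) : Prop :=
  ∀ f : X.carrier → ℝ, LipschitzWith 1 f → ∃ c : ℝ, X.mu {x | r < |f x - c|} ≤ κ

/-- the open sets used in the proof -/
def UU (κ₀ : ℝ≥0∞) (R : ℝ) : Set MMSpace := {X | ∃ κ < κ₀, ∃ r < R, Obs X κ r}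

lemma isOpen_UU (κ₀ : ℝ≥0∞) (R : ℝ) : @IsOpen _ (distTop dconc) (UU κ₀ R) := by
  rintro X ⟨κ, hκ, r, hr, hX⟩
  have hκt : κ ≠ ⊤ := (hκ.trans_le le_top).ne
  obtain ⟨e, he1, he2⟩ : ∃ e : ℝ≥0, 0 < e ∧ κ + e < κ₀ := by
    obtain ⟨e, he, he'⟩ := ENNReal.lt_iff_exists_add_pos_lt.1 hκ
    exact ⟨e, he, he'⟩
  set d : ℝ≥0 := min e ⟨(R - r) / 2, by linarith⟩ with hd
  have hd0 : 0 < d := lt_min he1 (by
    rw [← NNReal.coe_lt_coe]
    change (0 : ℝ) < (R - r) / 2
    linarith)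
  have hde : d ≤ e := min_le_left _ _
  have hdr : (d : ℝ) ≤ (R - r) / 2 := by
    have : d ≤ ⟨(R - r) / 2, by linarith⟩ := min_le_right _ _
    exact_mod_cast this
  refine ⟨d, by exact_mod_cast hd0, fun Y hY => ?_⟩
  obtain ⟨φ, ψ, hφ, hψ, hlt⟩ := dconc_lt hY
  refine ⟨κ + d, lt_of_le_of_lt (by gcongr) he2, r + d, by linarith, fun g hg => ?_⟩
  have h1 : (⨅ f ∈ pull X φ, dKF f (g ∘ ψ)) < d := by
    refine lt_of_le_of_lt ?_ hlt
    refine le_trans ?_ (le_max_right _ _)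
    exact le_iSup₂ (f := fun (g : ℝ → ℝ) (_ : g ∈ pull Y ψ) => ⨅ f ∈ pull X φ, dKF f g) (g ∘ ψ)
      ⟨g, hg, rfl⟩
  simp only [iInf_lt_iff] at h1
  obtain ⟨_, ⟨f, hf, rfl⟩, h2⟩ := h1
  obtain ⟨δ, hδ, h3⟩ := dKF_lt h2
  have hδd : δ < d := by exact_mod_cast hδ
  obtain ⟨c, hc⟩ := hX f hf
  refine ⟨c, ?_⟩
  have hmf : MeasurableSet {x | r < |f x - c|} :=
    measurableSet_lt measurable_const ((hf.continuous.measurable.sub_const c).abs)
  have hmg : MeasurableSet {y | r + d < |g y - c|} :=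
    measurableSet_lt measurable_const ((hg.continuous.measurable.sub_const c).abs)
  have h4 : Y.mu {y | r + d < |g y - c|} = lam (ψ ⁻¹' {y | r + d < |g y - c|}) := by
    rw [← hψ.2, Measure.map_apply hψ.1 hmg]
  have h5 : X.mu {x | r < |f x - c|} = lam (φ ⁻¹' {x | r < |f x - c|}) := by
    rw [← hφ.2, Measure.map_apply hφ.1 hmf]
  rw [h4]
  calc lam (ψ ⁻¹' {y | r + d < |g y - c|})
      ≤ lam (φ ⁻¹' {x | r < |f x - c|} ∪ {t | (δ : ℝ) < |(f ∘ φ) t - (g ∘ ψ) t|}) := by
        refine measure_mono fun t ht => ?_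
        by_contra hcon
        rw [mem_union, not_or] at hcon
        have ht' : r + d < |g (ψ t) - c| := ht
        have a1 : |f (φ t) - c| ≤ r := not_lt.1 hcon.1
        have a2 : |f (φ t) - g (ψ t)| ≤ δ := not_lt.1 hcon.2
        have a3 : |g (ψ t) - c| ≤ |f (φ t) - g (ψ t)| + |f (φ t) - c| := by
          rw [abs_sub_comm (f (φ t)) (g (ψ t))]
          have := abs_sub_le (g (ψ t)) (f (φ t)) c
          exact this
        have a4 : (δ : ℝ) < d := by exact_mod_cast hδd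
        linarith
    _ ≤ lam (φ ⁻¹' {x | r < |f x - c|}) + lam {t | (δ : ℝ) < |(f ∘ φ) t - (g ∘ ψ) t|} :=
        measure_union_le _ _
    _ ≤ κ + d := by
        rw [← h5]
        gcongr
        exact h3.trans (by exact_mod_cast hδd.le)

lemma mem_UU (X : MMSpace) {κ₀ : ℝ≥0∞} (hκ₀ : 0 < κ₀) : ∃ R : ℕ, X ∈ UU κ₀ R := by
  obtain ⟨κ, hκ0, hκ⟩ := exists_between hκ₀
  have hne : Nonempty X.carrier := by
    by_contra hcon
    rw [not_nonempty_iff] at hcon
    have h1 : X.mu univ = 1 := measure_univ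
    rw [univ_eq_empty_iff.2 hcon, measure_empty] at h1
    exact zero_ne_one h1
  obtain ⟨y₀⟩ := hne
  have h1 : Tendsto (fun n : ℕ => X.mu {x | (n : ℝ) < dist x y₀}) atTop (𝓝 0) := by
    have h2 : (⋂ n : ℕ, {x : X.carrier | (n : ℝ) < dist x y₀}) = ∅ := by
      ext x
      simp only [mem_iInter, mem_empty_iff_false, iff_false, not_forall]
      obtain ⟨n, hn⟩ := exists_nat_ge (dist x y₀)
      exact ⟨n, not_lt.2 hn⟩
    have h3 := tendsto_measure_iInter_atTop (μ := X.mu)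
      (s := fun n : ℕ => {x : X.carrier | (n : ℝ) < dist x y₀})
      (fun n => (measurableSet_lt measurable_const
        (measurable_id.dist measurable_const)).nullMeasurableSet)
      (fun m n hmn x hx => by
        have hx' : (n : ℝ) < dist x y₀ := hx
        have hmn' : (m : ℝ) ≤ n := by exact_mod_cast hmn
        exact lt_of_le_of_lt hmn' hx') ⟨0, measure_ne_top _ _⟩
    rw [h2, measure_empty] at h3
    exact h3
  obtain ⟨n, hn⟩ := (h1.eventually (gt_mem_nhds hκ0)).exists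
  refine ⟨n + 1, κ, hκ, n, by push_cast; linarith, fun f hf => ⟨f y₀, ?_⟩⟩
  refine (measure_mono fun x hx => ?_).trans hn.le
  have hx' : (n : ℝ) < |f x - f y₀| := hx
  have := hf.dist_le_mul x y₀
  rw [Real.dist_eq] at this
  simp only [NNReal.coe_one, one_mul] at this
  exact lt_of_lt_of_le hx' this

lemma Obs_iso {X Y : MMSpace} (h : MMIso X Y) (κ : ℝ≥0∞) (r : ℝ) : Obs X κ r ↔ Obs Y κ r := by
  obtain ⟨F, hFm, hFb, hFi, hFmap⟩ := h
  have hae : ∀ᵐ x ∂X.mu, x ∈ X.mu.support := X.mu.support_mem_ae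
  have key : ∀ (f : X.carrier → ℝ) (g : Y.carrier → ℝ), Measurable g →
      (∀ x ∈ X.mu.support, f x = g (F x)) → ∀ c,
      X.mu {x | r < |f x - c|} = Y.mu {y | r < |g y - c|} := by
    intro f g hg hfg c
    have hm : MeasurableSet {y | r < |g y - c|} :=
      measurableSet_lt measurable_const ((hg.sub_const c).abs)
    rw [← hFmap, Measure.map_apply hFm hm]
    refine measure_congr ?_
    filter_upwards [hae] with x hx
    have : (r < |f x - c|) = (r < |g (F x) - c|) := by rw [hfg x hx]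
    exact this
  constructor
  · intro hX g hg
    -- extend `g ∘ F` from the support
    have h1 : LipschitzOnWith 1 (g ∘ F) X.mu.support := by
      refine LipschitzOnWith.of_dist_le_mul fun x hx x' hx' => ?_
      rw [NNReal.coe_one, one_mul, ← hFi x hx x' hx']
      have := hg.dist_le_mul (F x) (F x')
      rwa [NNReal.coe_one, one_mul] at this
    obtain ⟨f, hf, hfe⟩ := h1.extend_real
    obtain ⟨c, hc⟩ := hX f hf
    refine ⟨c, ?_⟩
    rwa [← key f g hg.continuous.measurable (fun x hx => (hfe hx).symm) c]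
  · intro hY f hf
    classical
    -- transport `f` to the image of the support
    set g₀ : Y.carrier → ℝ := fun y => if h : ∃ x ∈ X.mu.support, F x = y then f h.choose else 0
      with hg₀
    have hval : ∀ x ∈ X.mu.support, g₀ (F x) = f x := by
      intro x hx
      have hex : ∃ x' ∈ X.mu.support, F x' = F x := ⟨x, hx, rfl⟩
      simp only [hg₀, dif_pos hex]
      congr 1
      exact hFb.injOn hex.choose_spec.1 hx hex.choose_spec.2
    have h1 : LipschitzOnWith 1 g₀ (F '' X.mu.support) := by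
      refine LipschitzOnWith.of_dist_le_mul ?_
      rintro _ ⟨x, hx, rfl⟩ _ ⟨x', hx', rfl⟩
      rw [hval x hx, hval x' hx', hFi x hx x' hx']
      exact hf.dist_le_mul x x'
    obtain ⟨g, hg, hge⟩ := h1.extend_real
    obtain ⟨c, hc⟩ := hY g hg
    refine ⟨c, ?_⟩
    rwa [key f g hg.continuous.measurable (fun x hx => by
      rw [← hge ⟨x, hx, rfl⟩, hval x hx]) c]

/-- the open sets in the space of classes -/
def VV (κ₀ : ℝ≥0∞) (R : ℝ) : Set ConcSpace :=
  {q | Quot.lift (fun X => X ∈ UU κ₀ R) (fun X Y h => propext (by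
    refine exists_congr fun κ => and_congr_right fun _ => exists_congr fun r =>
      and_congr_right fun _ => Obs_iso h κ r)) q}

lemma isOpen_VV (κ₀ : ℝ≥0∞) (R : ℝ) : IsOpen (VV κ₀ R) := by
  let _ := distTop dconc
  exact isOpen_UU κ₀ R

/-- atomic measures on the line -/
noncomputable def lineMu (a : ℕ → ℝ) : Measure ℝ :=
  Measure.sum fun n => ((2 : ℝ≥0∞)⁻¹ ^ (n + 1)) • Measure.dirac (a n)

instance (a : ℕ → ℝ) : IsProbabilityMeasure (lineMu a) := by
  refine ⟨?_⟩
  rw [lineMu, Measure.sum_apply _ MeasurableSet.univ]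
  simp only [Measure.smul_apply, measure_univ, smul_eq_mul, mul_one]
  rw [ENNReal.tsum_geometric_add_one, ENNReal.one_sub_inv_two, inv_inv]
  exact ENNReal.inv_mul_cancel (by simp) (by simp)

/-- the mm-space on the line -/
noncomputable def line (a : ℕ → ℝ) : MMSpace := { carrier := ℝ, mu := lineMu a }

lemma lineMu_ge (a : ℕ → ℝ) (m : ℕ) {s : Set ℝ} (hs : a m ∈ s) (hm : MeasurableSet s) :
    (2 : ℝ≥0∞)⁻¹ ^ (m + 1) ≤ lineMu a s := by
  rw [lineMu, Measure.sum_apply _ hm]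
  refine le_trans ?_ (ENNReal.le_tsum m)
  simp [Measure.smul_apply, Measure.dirac_apply' _ hm, hs]

lemma line_bound (a : ℕ → ℝ) (m : ℕ) {R : ℝ} (h : line a ∈ UU ((2 : ℝ≥0∞)⁻¹ ^ (m + 1)) R) :
    |a m - a 0| < 2 * R := by
  obtain ⟨κ, hκ, r, hr, hX⟩ := h
  obtain ⟨c, hc⟩ := hX (id : ℝ → ℝ) LipschitzWith.id
  have hm : MeasurableSet {x : ℝ | r < |x - c|} :=
    measurableSet_lt measurable_const ((measurable_id.sub_const c).abs)
  have hc' : lineMu a {x : ℝ | r < |x - c|} ≤ κ := hc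
  have h1 : |a m - c| ≤ r := by
    by_contra hcon
    exact absurd ((lineMu_ge a m (s := {x : ℝ | r < |x - c|}) (not_le.1 hcon) hm).trans hc')
      (not_le.2 hκ)
  have h2 : |a 0 - c| ≤ r := by
    by_contra hcon
    have h3 := (lineMu_ge a 0 (s := {x : ℝ | r < |x - c|}) (not_le.1 hcon) hm).trans hc'
    have h4 : (2 : ℝ≥0∞)⁻¹ ^ (m + 1) ≤ (2 : ℝ≥0∞)⁻¹ ^ (0 + 1) :=
      pow_le_pow_right_of_le_one' (by simp) (by omega)
    exact absurd (h4.trans h3) (not_le.2 hκ)
  have h3 := abs_sub_le (a m) c (a 0)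
  rw [abs_sub_comm c (a 0)] at h3
  linarith

theorem not_sigmaCompact : ¬ SigmaCompactSpace ConcSpace := by
  intro hs
  set K : ℕ → Set ConcSpace := fun n => compactCovering ConcSpace n with hK
  have hKc : ∀ n, IsCompact (K n) := fun n => isCompact_compactCovering _ n
  have hb : ∀ n m : ℕ, ∃ R : ℕ, K n ⊆ VV ((2 : ℝ≥0∞)⁻¹ ^ (m + 1)) R := by
    intro n m
    have hpos : (0 : ℝ≥0∞) < (2 : ℝ≥0∞)⁻¹ ^ (m + 1) := ENNReal.pow_pos (by simp) _
    obtain ⟨R, hR⟩ := (hKc n).elim_directed_cover (fun R : ℕ => VV ((2 : ℝ≥0∞)⁻¹ ^ (m + 1)) R)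
      (fun R => isOpen_VV _ _) (by
        intro q _
        induction q using Quot.ind with
        | mk X =>
          obtain ⟨R, hR⟩ := mem_UU X hpos
          exact mem_iUnion.2 ⟨R, hR⟩)
      (by
        refine directed_of_isDirected_le ?_
        intro R R' hRR' q
        induction q using Quot.ind with
        | mk X =>
          rintro ⟨κ, hκ, r, hr, hX⟩
          exact ⟨κ, hκ, r, hr.trans_le (by exact_mod_cast hRR'), hX⟩)
    exact ⟨R, hR⟩
  choose R hR using hb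
  set a : ℕ → ℝ := fun m => match m with
    | 0 => 0
    | n + 1 => 2 * R n (n + 1) with ha
  have hcov : (Quot.mk MMIso (line a) : ConcSpace) ∈ ⋃ n, K n := by
    rw [hK, iUnion_compactCovering]
    trivial
  obtain ⟨n, hn⟩ := mem_iUnion.1 hcov
  have h1 : line a ∈ UU ((2 : ℝ≥0∞)⁻¹ ^ (n + 1 + 1)) (R n (n + 1)) := hR n (n + 1) hn
  have h2 := line_bound a (n + 1) h1
  simp only [ha, sub_zero] at h2
  rw [abs_of_nonneg (by positivity)] at h2
  exact lt_irrefl _ h2

end Pool.Agent.Q151.MM
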