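import Pool.Agent.Q151.MM.Param

/-!
# Scaling and products with two-point spaces
-/

open Set MeasureTheory Filter Topology ProbabilityTheory Uniformity
open scoped ENNReal NNReal

namespace Pool.Agent.Q151.MM

/-- The metric `t · d` (with the same uniform structure). -/
@[instance_reducible] def scaleMetric {X : Type} (m : MetricSpace X) (t : ℝ) (ht : 0 < t) :
    MetricSpace X where
  dist x y := t * dist x y
  dist_self x := by simp
  dist_comm x y := by rw [dist_comm]
  dist_triangle x y z := by
    have := dist_triangle x y z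
    nlinarith
  eq_of_dist_eq_zero := by
    intro x y h
    have : dist x y = 0 := by
      rcases mul_eq_zero.1 h with h | h
      · exact absurd h ht.ne'
      · exact h
    exact dist_eq_zero.1 this
  toUniformSpace := m.toUniformSpace
  uniformity_dist := by
    have h := Metric.mk_uniformity_basis (α := X) (p := fun ε : ℝ => 0 < ε) (f := fun ε => ε / t)
      (fun ε hε => div_pos hε ht) (fun ε hε => ⟨ε * t, mul_pos hε ht, by
        rw [mul_div_assoc, div_self ht.ne', mul_one]⟩)
    rw [h.eq_biInf]
    congr 1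
    funext ε
    congr 1
    funext hε
    congr 1
    ext p
    simp only [mem_setOf_eq]
    rw [lt_div_iff₀ ht, mul_comm]
  toBornology := m.toBornology
  cobounded_sets := by
    ext s
    rw [Set.mem_ofPred_eq]
    change s ∈ Bornology.cobounded X ↔ _
    rw [← Bornology.isCobounded_def, ← Bornology.isBounded_compl_iff, Metric.isBounded_iff]
    constructor
    · rintro ⟨C, hC⟩
      exact ⟨t * C, fun x hx y hy => mul_le_mul_of_nonneg_left (hC hx hy) ht.le⟩
    · rintro ⟨C, hC⟩
      refine ⟨C / t, fun x hx y hy => ?_⟩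
      rw [le_div_iff₀ ht, mul_comm]
      exact hC x hx y hy

/-- The mm-space `tX = (X, t d_X, μ_X)`. -/
def MMSpace.scale (X : MMSpace) (t : ℝ) (ht : 0 < t) : MMSpace where
  carrier := X.carrier
  metric := scaleMetric X.metric t ht
  complete := X.complete
  separable := X.separable
  measurable := X.measurable
  borel := X.borel
  mu := X.mu
  prob := X.prob

theorem scale_dist (X : MMSpace) (t : ℝ) (ht : 0 < t) (x y : X.carrier) :
    @dist (X.scale t ht).carrier _ x y = t * dist x y := rfl

/-- The one-point mm-space. -/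
noncomputable def MMSpace.pt : MMSpace where
  carrier := Unit
  mu := Measure.dirac ()

/-- The uniform measure on `{0, 1}`. -/
noncomputable def two : Measure ℝ := (2⁻¹ : ℝ≥0∞) • Measure.dirac 0 + (2⁻¹ : ℝ≥0∞) • Measure.dirac 1

instance : IsProbabilityMeasure two := ⟨by simp [two, ENNReal.inv_two_add_inv_two]⟩

theorem two_ae : ∀ᵐ b ∂two, b = 0 ∨ b = 1 := by
  have hm : MeasurableSet {b : ℝ | b = 0 ∨ b = 1} := by
    have : {b : ℝ | b = 0 ∨ b = 1} = {0} ∪ {1} := by ext; simp [or_comm]
    rw [this]
    exact (measurableSet_singleton _).union (measurableSet_singleton _)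
  rw [ae_iff]
  have : {b : ℝ | ¬ (b = 0 ∨ b = 1)} = {b : ℝ | b = 0 ∨ b = 1}ᶜ := rfl
  rw [this]
  simp [two, hm.compl]

/-- The map defining the measure of the product with a two-point space. -/
def jm {X : Type} (c : ℝ) (p : X × ℝ) : WithLp 1 (X × ℝ) := WithLp.toLp 1 (p.1, c * p.2)

theorem jm_cont {X : Type} [MetricSpace X] (c : ℝ) : Continuous (jm (X := X) c) := by
  unfold jm
  have : Continuous (fun p : X × ℝ => (p.1, c * p.2)) := by fun_prop
  exact (WithLp.prod_continuous_toLp 1 X ℝ).comp this


noncomputable instance wlpMeas {X : Type} [MetricSpace X] : MeasurableSpace (WithLp 1 (X × ℝ)) :=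
  borel _

instance wlpBorel {X : Type} [MetricSpace X] : BorelSpace (WithLp 1 (X × ℝ)) := ⟨rfl⟩

theorem jm_meas {X : Type} [MetricSpace X] [SecondCountableTopology X] [MeasurableSpace X]
    [BorelSpace X] (c : ℝ) : Measurable (jm (X := X) c) := (jm_cont c).measurable

/-- The mm-space `X ×_{ℓ¹} cP`, realised in `X ×_{ℓ¹} ℝ`. -/
noncomputable def MMSpace.J (X : MMSpace) (c : ℝ) : MMSpace where
  carrier := WithLp 1 (X.carrier × ℝ)
  mu := Measure.map (jm c) (X.mu.prod two)
  prob := Measure.isProbabilityMeasure_map (jm_meas c).aemeasurable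

theorem J_dist {X : Type} [MetricSpace X] (x y : X) (a b : ℝ) :
    dist (WithLp.toLp 1 (x, a)) (WithLp.toLp 1 (y, b)) = dist x y + |a - b| := by
  rw [WithLp.prod_dist_eq_add (by norm_num)]
  simp [Real.dist_eq]

/-! ### Isomorphisms -/

theorem MMIso.of_closed {X Y : MMSpace} (S : Set X.carrier) (hS : IsClosed S)
    (hS0 : X.mu Sᶜ = 0) (F : X.carrier → Y.carrier) (hF : Measurable F)
    (hi : ∀ x ∈ S, ∀ x' ∈ S, dist (F x) (F x') = dist x x') (hm : X.mu.map F = Y.mu) :
    MMIso X Y := by
  have hsub : X.mu.support ⊆ S := Measure.support_subset_of_isClosed hS hS0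
  have hi' : ∀ x ∈ X.mu.support, ∀ x' ∈ X.mu.support, dist (F x) (F x') = dist x x' :=
    fun x hx x' hx' => hi x (hsub hx) x' (hsub hx')
  have hcs : X.mu X.mu.supportᶜ = 0 := Measure.measure_compl_support
  have hcl : IsClosed (F '' X.mu.support) := by
    have h1 : IsComplete X.mu.support := Measure.isClosed_support.isComplete
    have hiso : Isometry (fun x : X.mu.support => F x) := by
      apply Isometry.of_dist_eq
      intro x y
      exact hi' x x.2 y y.2
    have : F '' X.mu.support = range (fun x : X.mu.support => F x) := by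
      ext y; simp
    rw [this]
    haveI : CompleteSpace X.mu.support := h1.completeSpace_coe
    exact hiso.isClosedEmbedding.isClosed_range
  refine ⟨F, hF, ⟨?_, ?_, ?_⟩, hi', hm⟩
  · intro x hx
    rw [Measure.mem_support_iff_forall]
    intro U hU
    obtain ⟨V, hVU, hV, hxV⟩ := mem_nhds_iff.1 hU
    refine lt_of_lt_of_le ?_ (measure_mono hVU)
    rw [← hm, Measure.map_apply hF hV.measurableSet]
    obtain ⟨ε, hε, hb⟩ := Metric.isOpen_iff.1 hV _ hxV
    have h1 : Metric.ball x ε ∩ X.mu.support ⊆ F ⁻¹' V := by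
      rintro y ⟨hy, hys⟩
      apply hb
      rw [Metric.mem_ball, hi' y hys x hx]
      exact hy
    have h2 : X.mu (Metric.ball x ε) ≤ X.mu (Metric.ball x ε ∩ X.mu.support)
        + X.mu X.mu.supportᶜ := by
      refine (measure_mono ?_).trans (measure_union_le _ _)
      intro y hy
      by_cases hys : y ∈ X.mu.support
      · exact Or.inl ⟨hy, hys⟩
      · exact Or.inr hys
    rw [hcs, add_zero] at h2
    have h3 : 0 < X.mu (Metric.ball x ε) :=
      (Measure.mem_support_iff_forall x).1 hx _ (Metric.ball_mem_nhds x hε)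
    exact lt_of_lt_of_le h3 (h2.trans (measure_mono h1))
  · intro x hx y hy hxy
    have := hi' x hx y hy
    rw [hxy, dist_self] at this
    exact dist_eq_zero.1 this.symm
  · apply Measure.support_subset_of_isClosed hcl
    rw [mem_ae_iff, ← hm, Measure.map_apply hF hcl.isOpen_compl.measurableSet]
    refine measure_mono_null ?_ hcs
    intro x hx hxs
    exact hx ⟨x, hxs, rfl⟩

theorem MMIso.of_isometry {X Y : MMSpace} (F : X.carrier → Y.carrier) (hF : Measurable F)
    (hi : ∀ x x', dist (F x) (F x') = dist x x') (hm : X.mu.map F = Y.mu) : MMIso X Y :=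
  MMIso.of_closed univ isClosed_univ (by simp) F hF (fun x _ x' _ => hi x x') hm

theorem iso_scale {X Y : MMSpace} (h : MMIso X Y) (t : ℝ) (ht : 0 < t) :
    MMIso (X.scale t ht) (Y.scale t ht) := by
  obtain ⟨F, hF, hb, hi, hm⟩ := h
  refine ⟨F, hF, hb, ?_, hm⟩
  intro x hx x' hx'
  exact congrArg (fun r => t * r) (hi x hx x' hx')

theorem iso_scale_one (X : MMSpace) : MMIso (X.scale 1 one_pos) X := by
  refine MMIso.of_isometry (X := X.scale 1 one_pos) (Y := X) (fun x => x) measurable_id ?_ ?_
  · intro x x'
    exact (one_mul (@dist X.carrier _ x x')).symm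
  · exact Measure.map_id

theorem iso_scale_scale (X : MMSpace) (s t : ℝ) (hs : 0 < s) (ht : 0 < t) :
    MMIso ((X.scale t ht).scale s hs) (X.scale (s * t) (mul_pos hs ht)) := by
  refine MMIso.of_isometry (X := (X.scale t ht).scale s hs)
    (Y := X.scale (s * t) (mul_pos hs ht)) (fun x => x) measurable_id ?_ ?_
  · intro x x'
    exact mul_assoc s t (@dist X.carrier _ x x')
  · exact Measure.map_id

end Pool.Agent.Q151.MM
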