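import Pool.Agent.Q151.MM.Contr

/-!
# Contractibility of the punctured space of mm-spaces
-/

open Set MeasureTheory Filter Topology ProbabilityTheory
open scoped ENNReal NNReal

namespace Pool.Agent.Q151.MM

theorem exists_small {ε : ℝ≥0} (hε : 0 < ε) {r : ℝ} (hr : 0 ≤ r) :
    ∃ δ : ℝ≥0, 0 < δ ∧ δ ≤ ε / 2 ∧ (δ : ℝ) * (2 * r + ε + 1) ≤ ε := by
  have hεr : (0 : ℝ) < ε := hε
  refine ⟨min (ε / 2) ((ε : ℝ) / (2 * r + ε + 1)).toNNReal, ?_, min_le_left _ _, ?_⟩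
  · exact lt_min (half_pos hε) (by simp only [Real.toNNReal_pos]; positivity)
  · have h1 : ((min (ε / 2) ((ε : ℝ) / (2 * r + ε + 1)).toNNReal : ℝ≥0) : ℝ)
        ≤ (ε : ℝ) / (2 * r + ε + 1) := by
      have : (min (ε / 2) ((ε : ℝ) / (2 * r + ε + 1)).toNNReal : ℝ≥0)
        ≤ ((ε : ℝ) / (2 * r + ε + 1)).toNNReal := min_le_right _ _
      have h2 : ((min (ε / 2) ((ε : ℝ) / (2 * r + ε + 1)).toNNReal : ℝ≥0) : ℝ)
        ≤ (((ε : ℝ) / (2 * r + ε + 1)).toNNReal : ℝ) := by exact_mod_cast this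
      rwa [Real.coe_toNNReal _ (by positivity)] at h2
    rwa [le_div_iff₀ (by positivity)] at h1

theorem BR.scale2 (X : MMSpace) {ε : ℝ≥0} (hε : 0 < ε) : ∃ δ : ℝ≥0, 0 < δ ∧
    ∀ Y (t t' : ℝ) (ht : 0 < t) (ht' : 0 < t'), BR X Y δ → |t - t'| ≤ δ →
      BR (Y.scale t ht) (Y.scale t' ht') ε := by
  obtain ⟨x0⟩ := carrier_nonempty X
  obtain ⟨r, hr, hm⟩ := mass X x0 (half_pos hε)
  obtain ⟨δ, hδ0, hδ1, hδ2⟩ := exists_small hε hr
  refine ⟨δ, hδ0, ?_⟩
  rintro Y t t' ht ht' ⟨φ, ψ, hφ, hψ, I, hI, hIm, hd⟩ htt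
  have hS : MeasurableSet {x : X.carrier | r < dist x x0} :=
    (isOpen_lt continuous_const (continuous_id.dist continuous_const)).measurableSet
  refine ⟨ψ, ψ, hψ.scale t ht, hψ.scale t' ht', I ∩ (φ ⁻¹' {x | r < dist x x0})ᶜ,
    hI.inter (hφ.1 hS).compl, ?_, ?_⟩
  · rw [compl_inter, compl_compl]
    refine (measure_union_le _ _).trans ?_
    rw [← Measure.map_apply hφ.1 hS, hφ.2]
    have hk' := hIm.trans (show (δ : ℝ≥0∞) ≤ ((ε / 2 : ℝ≥0) : ℝ≥0∞) by exact_mod_cast hδ1)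
    refine (add_le_add hk' hm).trans ?_
    rw [← ENNReal.coe_add, add_halves]
  · rintro s ⟨hs1, hs2⟩ u ⟨hu1, hu2⟩
    change |t * dist (α := Y.carrier) (ψ s) (ψ u) - t' * dist (α := Y.carrier) (ψ s) (ψ u)| ≤ _
    rw [← sub_mul, abs_mul, abs_of_nonneg (dist_nonneg (x := ψ s) (y := ψ u))]
    have h1 := abs_le.1 (hd s hs1 u hu1)
    have h2 : dist (φ s) x0 ≤ r := not_lt.1 hs2
    have h3 : dist (φ u) x0 ≤ r := not_lt.1 hu2
    have h4 := dist_triangle_right (φ s) (φ u) x0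
    have hδ1' : (δ : ℝ) ≤ ε / 2 := by exact_mod_cast hδ1
    have hεr : (0 : ℝ) < ε := hε
    have h5 : dist (ψ s) (ψ u) ≤ 2 * r + ε + 1 := by
      have := h1.1
      linarith
    exact (mul_le_mul htt h5 dist_nonneg δ.2).trans hδ2

theorem half_scale2 {X Y : MMSpace} {x0 : X.carrier} {r : ℝ} {ε δ : ℝ≥0}
    (hm : X.mu {x | r < dist x x0} ≤ (ε / 2 : ℝ≥0)) (hδ1 : δ ≤ ε / 2)
    (hδ2 : (δ : ℝ) * (2 * r + ε + 1) ≤ ε) (hr : 0 ≤ r) (hε : 0 < ε) {φ : ℝ → X.carrier}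
    {ψ : ℝ → Y.carrier}
    (hφ : IsParam X φ) (h2 : Half Y X ψ φ δ) {t t' : ℝ} (ht : 0 < t) (ht' : 0 < t')
    (htt : |t - t'| ≤ δ) : Half (Y.scale t ht) (Y.scale t' ht') ψ ψ ε := by
  have hS : MeasurableSet {x : X.carrier | r < dist x x0} :=
    (isOpen_lt continuous_const (continuous_id.dist continuous_const)).measurableSet
  intro F hF
  rw [lip_iff] at hF
  have hF' : ∀ x y : Y.carrier, |F x - F y| ≤ t * dist x y := hF
  obtain ⟨f, hf, hk⟩ := h2 (fun x => t⁻¹ * F x) (by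
    rw [lip_iff]
    intro x y
    rw [← mul_sub, abs_mul, abs_of_pos (inv_pos.2 ht)]
    calc t⁻¹ * |F x - F y| ≤ t⁻¹ * (t * dist x y) :=
          mul_le_mul_of_nonneg_left (hF' x y) (inv_pos.2 ht).le
      _ = dist x y := by rw [← mul_assoc, inv_mul_cancel₀ ht.ne', one_mul])
  rw [lip_iff] at hf
  refine ⟨fun y => t * f x0 + (t' / t) * (F y - t * f x0), ?_, ?_⟩
  · rw [lip_iff]
    intro x y
    change |t * f x0 + (t' / t) * (F x - t * f x0) - (t * f x0 + (t' / t) * (F y - t * f x0))|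
      ≤ t' * dist (α := Y.carrier) x y
    have e : t * f x0 + (t' / t) * (F x - t * f x0) - (t * f x0 + (t' / t) * (F y - t * f x0))
      = (t' / t) * (F x - F y) := by ring
    rw [e, abs_mul, abs_of_pos (div_pos ht' ht)]
    calc t' / t * |F x - F y| ≤ t' / t * (t * dist (α := Y.carrier) x y) :=
          mul_le_mul_of_nonneg_left (hF' x y) (div_pos ht' ht).le
      _ = t' * dist (α := Y.carrier) x y := by
          rw [← mul_assoc, div_mul_cancel₀ _ ht.ne']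
  · unfold KF at *
    have hsub : {s | (ε : ℝ) < |(F ∘ ψ) s -
          ((fun y => t * f x0 + (t' / t) * (F y - t * f x0)) ∘ ψ) s|} ⊆
        {s | (δ : ℝ) < |((fun x => t⁻¹ * F x) ∘ ψ) s - (f ∘ φ) s|} ∪
        φ ⁻¹' {x | r < dist x x0} := by
      intro s hs
      by_contra hcon
      rw [mem_union, not_or] at hcon
      have h3 : |t⁻¹ * F (ψ s) - f (φ s)| ≤ (δ : ℝ) := not_lt.1 hcon.1
      have h4 : dist (φ s) x0 ≤ r := not_lt.1 hcon.2
      have h5 := hf (φ s) x0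
      have hs : (ε : ℝ) < |F (ψ s) - (t * f x0 + (t' / t) * (F (ψ s) - t * f x0))| := hs
      have e : F (ψ s) - (t * f x0 + (t' / t) * (F (ψ s) - t * f x0))
          = (t - t') * (t⁻¹ * F (ψ s) - f x0) := by
        field_simp
        ring
      rw [e, abs_mul] at hs
      have h6 := abs_sub_le (t⁻¹ * F (ψ s)) (f (φ s)) (f x0)
      have hεr : (0 : ℝ) < ε := hε
      have hδ1' : (δ : ℝ) ≤ ε / 2 := by exact_mod_cast hδ1
      have h7 : |t⁻¹ * F (ψ s) - f x0| ≤ 2 * r + ε + 1 := by linarith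
      have := (mul_le_mul htt h7 (abs_nonneg _) δ.2).trans hδ2
      linarith
    refine (measure_mono hsub).trans ((measure_union_le _ _).trans ?_)
    rw [← Measure.map_apply hφ.1 hS, hφ.2]
    have hk' := hk.trans (show (δ : ℝ≥0∞) ≤ ((ε / 2 : ℝ≥0) : ℝ≥0∞) by exact_mod_cast hδ1)
    refine (add_le_add hk' hm).trans ?_
    rw [← ENNReal.coe_add, add_halves]

theorem CR.scale2 (X : MMSpace) {ε : ℝ≥0} (hε : 0 < ε) : ∃ δ : ℝ≥0, 0 < δ ∧
    ∀ Y (t t' : ℝ) (ht : 0 < t) (ht' : 0 < t'), CR X Y δ → |t - t'| ≤ δ →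
      CR (Y.scale t ht) (Y.scale t' ht') ε := by
  obtain ⟨x0⟩ := carrier_nonempty X
  obtain ⟨r, hr, hm⟩ := mass X x0 (half_pos hε)
  obtain ⟨δ, hδ0, hδ1, hδ2⟩ := exists_small hε hr
  refine ⟨δ, hδ0, ?_⟩
  rintro Y t t' ht ht' ⟨φ, ψ, hφ, hψ, h1, h2⟩ htt
  exact ⟨ψ, ψ, hψ.scale t ht, hψ.scale t' ht', half_scale2 hm hδ1 hδ2 hr hε hφ h2 ht ht' htt,
    half_scale2 hm hδ1 hδ2 hr hε hφ h2 ht' ht (by rw [abs_sub_comm]; exact htt)⟩

open scoped unitInterval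

section
variable {D : MMSpace → MMSpace → ℝ≥0∞}

/-- The underlying mm-space. -/
def vN (X : NN D) : MMd D := X.1

theorem vN_ind : Topology.IsInducing (vN (D := D)) := ⟨rfl⟩

/-- The homotopy `[X] ↦ [(1 - s) X ×_{ℓ¹} s P]`. -/
noncomputable def Ks (s : ℝ) (x : XStar D) : XStar D := by
  classical
  exact if h : s < 1 then JS s (sS (1 - s) (sub_pos.2 h) x) else qN PN

theorem Ks_zero (x : XStar D) : Ks 0 x = x := by
  unfold Ks
  rw [dif_pos one_pos]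
  apply Subtype.ext
  change Jq 0 (XSp.scale (1 - 0) _ x.1) = x.1
  rw [Jq_zero, scale_congr _ one_pos (sub_zero 1), scale_one]

theorem Ks_one (x : XStar D) : Ks 1 x = qN PN := by
  unfold Ks
  rw [dif_neg (lt_irrefl _)]

/-- The homotopy on nontrivial mm-spaces. -/
noncomputable def KK (s : ℝ) (X : NN D) : NN D := by
  classical
  exact if h : s < 1 then KN (⟨MMSpace.scale X.1 (1 - s) (sub_pos.2 h), X.2⟩, s) else PN

theorem KK_lt {s : ℝ} (h : s < 1) (X : NN D) :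
    (KK s X).1 = MMSpace.J (MMSpace.scale X.1 (1 - s) (sub_pos.2 h)) s := by
  unfold KK
  rw [dif_pos h]; rfl

theorem KK_ge {s : ℝ} (h : s = 1) (X : NN D) : (KK s X).1 = MMSpace.J MMSpace.pt 1 := by
  unfold KK
  rw [dif_neg (by rw [h]; exact lt_irrefl _)]; rfl

theorem Ks_qN (s : ℝ) (X : NN D) : Ks s (qN X) = qN (KK s X) := by
  unfold Ks KK
  by_cases h : s < 1
  · rw [dif_pos h, dif_pos h]; rfl
  · rw [dif_neg h, dif_neg h]

variable {R : MMSpace → MMSpace → ℝ≥0 → Prop} (hG : Gauge D R)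
  (hS : ∀ (X : MMSpace) {ε : ℝ≥0}, 0 < ε → ∃ δ : ℝ≥0, 0 < δ ∧
    ∀ Y (t t' : ℝ) (ht : 0 < t) (ht' : 0 < t'), R X Y δ → |t - t'| ≤ δ →
      R (Y.scale t ht) (Y.scale t' ht') ε)
include hG hS

theorem Gauge.KK_cont : Continuous (fun p : I × NN D => KK (p.1 : ℝ) p.2) := by
  rw [continuous_iff_continuousAt]
  rintro ⟨s, X⟩
  rw [ContinuousAt, vN_ind.tendsto_nhds_iff, nhds_prod_eq]
  have hbI : (𝓝 s).HasBasis (fun ε : ℝ => 0 < ε) (fun ε => {s' : I | |(s' : ℝ) - s| < ε}) := by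
    exact Metric.nhds_basis_ball (x := s)
  have hbX : ∀ δ : ℝ≥0, 0 < δ → {Y : NN D | R X.1 Y.1 δ} ∈ 𝓝 X := by
    intro δ hδ
    have : {Y : MMd D | R X.1 Y δ} ∈ 𝓝 X.1 := (hG.basis X.1).mem_of_mem hδ
    exact continuous_subtype_val.continuousAt.preimage_mem_nhds this
  intro V hV
  obtain ⟨ε, hε, hεV⟩ := (hG.basis _).mem_iff.1 hV
  rw [mem_map]
  rcases lt_or_eq_of_le s.2.2 with hs | hs
  · have h1s : 0 < 1 - (s : ℝ) := sub_pos.2 hs
    obtain ⟨δ1, hδ1, hsc⟩ := hS X.1 (ε := ε / 8) (by positivity)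
    set f : ℝ≥0 := fac (1 - (s : ℝ)) with hf
    have hf1 : 1 ≤ f := one_le_fac _
    have hfpos : 0 < f := lt_of_lt_of_le one_pos hf1
    have hδ2 : 0 < ε / (8 * f) := by positivity
    have hn2 : {s' : I | |(s' : ℝ) - s| < min (1 - (s : ℝ)) (min (δ1 : ℝ) (ε / 4))} ∈ 𝓝 s := by
      apply hbI.mem_of_mem
      have h1 : (0 : ℝ) < δ1 := hδ1
      have h2 : (0 : ℝ) < ε := hε
      exact lt_min h1s (lt_min h1 (by positivity))
    filter_upwards [prod_mem_prod hn2 (hbX (min δ1 (ε / (8 * f))) (lt_min hδ1 hδ2))]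
    rintro ⟨s', Y⟩ ⟨hs', hY⟩
    have hs' : |(s' : ℝ) - s| < min (1 - (s : ℝ)) (min (δ1 : ℝ) (ε / 4)) := hs'
    have hY : R X.1 Y.1 (min δ1 (ε / (8 * f))) := hY
    have a1 := hs'.trans_le (min_le_left _ _)
    have a2 := (hs'.trans_le (min_le_right _ _)).trans_le (min_le_left _ _)
    have a3 := (hs'.trans_le (min_le_right _ _)).trans_le (min_le_right _ _)
    have hlt : (s' : ℝ) < 1 := by
      have := (abs_lt.1 a1).2
      linarith
    apply hεV
    change R (KK (s : ℝ) X).1 (KK (s' : ℝ) Y).1 ε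
    rw [KK_lt hs, KK_lt hlt]
    have b1 := hG.scale (hG.mono hY (min_le_right _ _)) (1 - (s : ℝ)) (sub_pos.2 hs)
    have b2 := hsc Y.1 (1 - s) (1 - s') (sub_pos.2 hs) (sub_pos.2 hlt)
      (hG.mono hY (min_le_left _ _)) (by
        have : 1 - (s : ℝ) - (1 - s') = s' - s := by ring
        rw [this]; exact a2.le)
    have b3 := hG.trans b1 b2
    have b4 := hG.J b3 (c := s) (c' := s') (δ := ε / 4) (by
      rw [abs_sub_comm]
      push_cast
      exact a3.le)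
    refine hG.mono b4 ?_
    rw [← hf]
    have : f * (ε / (8 * f)) = ε / 8 := by field_simp
    rw [this]
    have : (2 * (ε / 8 + ε / 8) + ε / 4 : ℝ≥0) ≤ ε := by
      rw [← NNReal.coe_le_coe]
      push_cast
      have h2 : (0 : ℝ) < ε := hε
      linarith
    exact this
  · have hs1 : s = 1 := Subtype.ext hs
    subst hs1
    obtain ⟨δ, hδ, A, hA, hlim⟩ := hG.lim X.1 (ε := ε / 4) (by positivity)
    have hn2 : {s' : I | |(s' : ℝ) - (1 : I)| < min A (ε / 2)} ∈ 𝓝 (1 : I) := by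
      apply hbI.mem_of_mem
      have h2 : (0 : ℝ) < ε := hε
      exact lt_min hA (by positivity)
    filter_upwards [prod_mem_prod hn2 (hbX δ hδ)]
    rintro ⟨s', Y⟩ ⟨hs', hY⟩
    have hs' : |(s' : ℝ) - (1 : I)| < min A (ε / 2) := hs'
    have hY : R X.1 Y.1 δ := hY
    rw [Set.Icc.coe_one] at hs'
    apply hεV
    change R (KK ((1 : I) : ℝ) X).1 (KK (s' : ℝ) Y).1 ε
    rw [KK_ge Set.Icc.coe_one]
    rcases lt_or_eq_of_le s'.2.2 with hlt | heq
    · rw [KK_lt hlt]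
      have c1 := (abs_lt.1 hs').1
      have c2 := min_le_left A ((ε : ℝ) / 2)
      have b1 := hlim Y.1 hY (1 - s') (sub_pos.2 hlt) (by linarith)
      have b4 := hG.symm (hG.J b1 (c := s') (c' := 1) (δ := ε / 2) (by
        push_cast
        exact (hs'.trans_le (min_le_right _ _)).le))
      refine hG.mono b4 ?_
      rw [← NNReal.coe_le_coe]
      push_cast
      linarith
    · rw [KK_ge heq]
      exact hG.mono (hG.refl _) hε.le

theorem Gauge.Ks_cont : Continuous (fun p : I × XStar D => Ks (p.1 : ℝ) p.2) := by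
  have h1 : IsOpenQuotientMap (Prod.map (id : I → I) (qN (D := D))) :=
    IsOpenQuotientMap.id.prodMap hG.qN_oq
  rw [← h1.continuous_comp_iff]
  have h2 : (fun p : I × XStar D => Ks (p.1 : ℝ) p.2) ∘ Prod.map (id : I → I) (qN (D := D))
      = fun p : I × NN D => qN (KK (p.1 : ℝ) p.2) := by
    funext p
    exact Ks_qN _ _
  rw [h2]
  exact hG.qN_oq.continuous.comp (hG.KK_cont hS)

theorem Gauge.star_contractible : ContractibleSpace (XStar D) := by
  rw [contractible_iff_id_nullhomotopic]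
  refine ⟨qN PN, ⟨⟨⟨_, hG.Ks_cont hS⟩, ?_, ?_⟩⟩⟩
  · intro x
    exact Ks_zero x
  · intro x
    exact Ks_one x

end

end Pool.Agent.Q151.MM
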