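import Pool.Agent.Q151.MM.Width

/-!
# The spaces of mm-isomorphism classes and the scaling quotient
-/

open Set MeasureTheory Filter Topology ProbabilityTheory
open scoped ENNReal NNReal

namespace Pool.Agent.Q151.MM

/-- The set `𝒳` of mm-isomorphism classes of mm-spaces, with the topology given by the
distance `D` (the quotient of the topology of `D` on mm-spaces). -/
def XSp (_D : MMSpace → MMSpace → ℝ≥0∞) : Type 1 := Quot MMIso

/-- The class of `X`. -/
def cls (D : MMSpace → MMSpace → ℝ≥0∞) (X : MMSpace) : XSp D := Quot.mk _ X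

instance (D : MMSpace → MMSpace → ℝ≥0∞) : TopologicalSpace (XSp D) :=
  @instTopologicalSpaceQuot _ MMIso (distTop D)

/-- The action of `t > 0` on `𝒳`. -/
def XSp.scale {D : MMSpace → MMSpace → ℝ≥0∞} (t : ℝ) (ht : 0 < t) : XSp D → XSp D :=
  Quot.map (fun X => X.scale t ht) (fun _ _ h => iso_scale h t ht)

/-- `𝒳_* = 𝒳 ∖ {*}`. -/
def XStar (D : MMSpace → MMSpace → ℝ≥0∞) : Type 1 := {x : XSp D // x ≠ cls D MMSpace.pt}

instance (D : MMSpace → MMSpace → ℝ≥0∞) : TopologicalSpace (XStar D) := instTopologicalSpaceSubtype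

/-- `x` and `y` are in the same orbit of the scaling action. -/
def SameOrbit {D : MMSpace → MMSpace → ℝ≥0∞} (x y : XStar D) : Prop :=
  ∃ (t : ℝ) (ht : 0 < t), y.1 = XSp.scale t ht x.1

/-- `Σ = 𝒳_* / ℝ₊` with the quotient topology. -/
def Sig (D : MMSpace → MMSpace → ℝ≥0∞) : Type 1 := Quot (SameOrbit (D := D))

instance (D : MMSpace → MMSpace → ℝ≥0∞) : TopologicalSpace (Sig D) :=
  instTopologicalSpaceQuot

/-! ### Gauges -/

/-- The properties of the two distances that are used. -/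
structure Gauge (D : MMSpace → MMSpace → ℝ≥0∞) (R : MMSpace → MMSpace → ℝ≥0 → Prop) : Prop where
  lt_iff : ∀ X Y (ε : ℝ≥0∞), D X Y < ε ↔ ∃ δ : ℝ≥0, (δ : ℝ≥0∞) < ε ∧ R X Y δ
  of_box : ∀ {X Y ε}, BR X Y ε → R X Y ε
  cr : ∀ {X Y ε}, R X Y ε → CR X Y ε
  mono : ∀ {X Y ε ε'}, R X Y ε → ε ≤ ε' → R X Y ε'
  symm : ∀ {X Y ε}, R X Y ε → R Y X ε
  trans : ∀ {X Y Z a b}, R X Y a → R Y Z b → R X Z (a + b)
  scale : ∀ {X Y ε}, R X Y ε → ∀ t ht, R (X.scale t ht) (Y.scale t ht) (fac t * ε)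
  J : ∀ {X Y} {ε δ : ℝ≥0}, R X Y ε → ∀ {c c' : ℝ}, |c - c'| ≤ δ → R (X.J c) (Y.J c') (2 * ε + δ)
  lim : ∀ X {ε : ℝ≥0}, 0 < ε → ∃ δ : ℝ≥0, 0 < δ ∧ ∃ A : ℝ, 0 < A ∧
    ∀ Y, R X Y δ → ∀ a (ha : 0 < a), a ≤ A → R (Y.scale a ha) MMSpace.pt ε

theorem gauge_box : Gauge dbox BR where
  lt_iff := dbox_lt_iff
  of_box := id
  cr := BR.cr
  mono := BR.mono
  symm := BR.symm
  trans := BR.trans
  scale := BR.scale
  J := BR.J
  lim := BR.lim

theorem gauge_conc : Gauge dconc CR where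
  lt_iff := dconc_lt_iff
  of_box := BR.cr
  cr := id
  mono := CR.mono
  symm := CR.symm
  trans := CR.trans
  scale := CR.scale
  J := CR.J
  lim := CR.lim

/-- Mm-spaces with the topology of `D`. -/
def MMd (_D : MMSpace → MMSpace → ℝ≥0∞) : Type 1 := MMSpace

instance (D : MMSpace → MMSpace → ℝ≥0∞) : TopologicalSpace (MMd D) := distTop D

theorem MMIso.refl (X : MMSpace) : MMIso X X :=
  MMIso.of_isometry (fun x => x) measurable_id (fun _ _ => rfl) Measure.map_id

section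
variable {D : MMSpace → MMSpace → ℝ≥0∞} {R : MMSpace → MMSpace → ℝ≥0 → Prop} (hG : Gauge D R)
include hG

theorem Gauge.iso {X Y : MMSpace} (h : MMIso X Y) : R X Y 0 := hG.of_box h.br

theorem Gauge.refl (X : MMSpace) : R X X 0 := hG.iso (MMIso.refl X)

theorem Gauge.basis (X : MMd D) :
    (𝓝 X).HasBasis (fun δ : ℝ≥0 => 0 < δ) (fun δ => {Y : MMd D | R X Y δ}) := by
  refine ⟨fun s => ?_⟩
  rw [mem_nhds_iff]
  constructor
  · rintro ⟨t, hts, ht, hX⟩
    obtain ⟨ε, hε, h⟩ := ht X hX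
    obtain ⟨δ, hδ0, hδε⟩ := ENNReal.lt_iff_exists_nnreal_btwn.1 hε
    refine ⟨δ, by exact_mod_cast hδ0, fun Y hY => hts (h Y ?_)⟩
    exact (hG.lt_iff X Y ε).2 ⟨δ, hδε, hY⟩
  · rintro ⟨δ, hδ, hs⟩
    refine ⟨{Y : MMd D | D X Y < δ}, ?_, ?_, ?_⟩
    · intro Y hY
      obtain ⟨δ1, h1, h2⟩ := (hG.lt_iff X Y δ).1 hY
      exact hs (hG.mono h2 (by exact_mod_cast h1.le))
    · intro Y hY
      obtain ⟨δ1, h1, h2⟩ := (hG.lt_iff X Y δ).1 hY
      have h1' : δ1 < δ := by exact_mod_cast h1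
      refine ⟨((δ - δ1 : ℝ≥0) : ℝ≥0∞), by exact_mod_cast tsub_pos_of_lt h1', fun Z hZ => ?_⟩
      obtain ⟨δ2, h3, h4⟩ := (hG.lt_iff Y Z _).1 hZ
      refine (hG.lt_iff X Z δ).2 ⟨δ1 + δ2, ?_, hG.trans h2 h4⟩
      have h3' : δ2 < δ - δ1 := by exact_mod_cast h3
      have : δ1 + δ2 < δ := by
        have := (lt_tsub_iff_left).1 h3'
        exact this
      exact_mod_cast this
    · exact (hG.lt_iff X X δ).2 ⟨0, by exact_mod_cast hδ, hG.refl X⟩

omit hG in
/-- The projection. -/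
def q (X : MMd D) : XSp D := Quot.mk _ X

omit hG in
theorem q_cont : Continuous (q (D := D)) := continuous_quot_mk

theorem Gauge.of_eqv {X Y : MMSpace} (h : Relation.EqvGen MMIso X Y) : R X Y 0 := by
  induction h with
  | rel x y h => exact hG.iso h
  | refl x => exact hG.refl x
  | symm x y _ ih => exact hG.symm ih
  | trans x y z _ _ ih1 ih2 =>
    have := hG.trans ih1 ih2
    simpa using this

theorem Gauge.of_q_eq {X Y : MMd D} (h : q X = q Y) : R X Y 0 :=
  hG.of_eqv (Quot.eqvGen_exact h)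

theorem Gauge.q_open : IsOpenMap (q (D := D)) := by
  intro U hU
  have : q ⁻¹' (q '' U) = U := by
    ext Y
    constructor
    · rintro ⟨X, hX, hXY⟩
      have h1 := hU.mem_nhds hX
      obtain ⟨δ, hδ, hs⟩ := (hG.basis X).mem_iff.1 h1
      exact hs (hG.mono (hG.of_q_eq hXY) hδ.le)
    · intro hY
      exact ⟨Y, hY, rfl⟩
  change IsOpen (q ⁻¹' (q '' U))
  rw [this]
  exact hU

theorem Gauge.q_oq : IsOpenQuotientMap (q (D := D)) :=
  ⟨Quot.mk_surjective, q_cont, hG.q_open⟩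

omit hG in
/-- Scaling of mm-spaces. -/
def scM (t : ℝ) (ht : 0 < t) (X : MMd D) : MMd D := MMSpace.scale X t ht

theorem Gauge.scM_cont (t : ℝ) (ht : 0 < t) : Continuous (scM (D := D) t ht) := by
  rw [continuous_iff_continuousAt]
  intro X
  rw [ContinuousAt, (hG.basis X).tendsto_iff (hG.basis _)]
  intro ε hε
  have hf : 0 < fac t := lt_of_lt_of_le one_pos (one_le_fac t)
  refine ⟨ε / fac t, div_pos hε hf, fun Y hY => ?_⟩
  have := hG.scale hY t ht
  rwa [mul_div_cancel₀ _ hf.ne'] at this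

theorem Gauge.scale_cont (t : ℝ) (ht : 0 < t) : Continuous (XSp.scale (D := D) t ht) := by
  rw [← hG.q_oq.continuous_comp_iff]
  exact q_cont.comp (hG.scM_cont t ht)

end

/-! ### The projection to `Σ` -/

section
variable {D : MMSpace → MMSpace → ℝ≥0∞}

theorem scale_one (x : XSp D) : XSp.scale 1 one_pos x = x := by
  induction x using Quot.ind with
  | _ X => exact Quot.sound (iso_scale_one X)

theorem scale_scale (s t : ℝ) (hs : 0 < s) (ht : 0 < t) (x : XSp D) :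
    XSp.scale s hs (XSp.scale t ht x) = XSp.scale (s * t) (mul_pos hs ht) x := by
  induction x using Quot.ind with
  | _ X => exact Quot.sound (iso_scale_scale X s t hs ht)

theorem scale_congr {s t : ℝ} (hs : 0 < s) (ht : 0 < t) (h : s = t) (x : XSp D) :
    XSp.scale s hs x = XSp.scale t ht x := by
  subst h; rfl

theorem sameOrbit_equiv : Equivalence (SameOrbit (D := D)) where
  refl x := ⟨1, one_pos, (scale_one x.1).symm⟩
  symm := by
    rintro x y ⟨t, ht, h⟩
    refine ⟨t⁻¹, inv_pos.2 ht, ?_⟩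
    rw [h, scale_scale, scale_congr _ one_pos (inv_mul_cancel₀ ht.ne'), scale_one]
  trans := by
    rintro x y z ⟨t, ht, h⟩ ⟨s, hs, h'⟩
    exact ⟨s * t, mul_pos hs ht, by rw [h', h, scale_scale]⟩

/-- The projection to `Σ`. -/
def mkS (x : XStar D) : Sig D := Quot.mk _ x

theorem mkS_eq {x y : XStar D} : mkS x = mkS y ↔ SameOrbit x y := by
  constructor
  · intro h
    have h1 := Quot.eqvGen_exact h
    exact sameOrbit_equiv.eqvGen_iff.1 h1
  · exact fun h => Quot.sound h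

/-- Triviality of a class. -/
def trivq (x : XSp D) : Prop := Quot.lift IsTriv (fun _ _ h => propext (triv_iso h)) x

theorem trivq_iff (x : XSp D) : trivq x ↔ x = cls D MMSpace.pt := by
  constructor
  · induction x using Quot.ind with
    | _ X => exact fun h => Quot.sound (iso_pt h)
  · rintro rfl
    exact triv_pt

theorem trivq_scale (t : ℝ) (ht : 0 < t) (x : XSp D) : trivq (XSp.scale t ht x) ↔ trivq x := by
  induction x using Quot.ind with
  | _ X => exact Iff.rfl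

/-- Scaling on `𝒳_*`. -/
def sS (t : ℝ) (ht : 0 < t) (x : XStar D) : XStar D :=
  ⟨XSp.scale t ht x.1, fun h => x.2 (by
    rw [← trivq_iff] at h ⊢
    exact (trivq_scale t ht x.1).1 h)⟩

/-- Nontrivial mm-spaces. -/
def NN (D : MMSpace → MMSpace → ℝ≥0∞) : Type 1 := {X : MMd D // ¬ IsTriv X}

instance : TopologicalSpace (NN D) := instTopologicalSpaceSubtype

/-- The projection of the nontrivial mm-spaces to `𝒳_*`. -/
def qN (X : NN D) : XStar D := ⟨q X.1, fun h => X.2 ((trivq_iff (q X.1)).2 h)⟩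

variable {R : MMSpace → MMSpace → ℝ≥0 → Prop} (hG : Gauge D R)
include hG

theorem Gauge.sS_cont (t : ℝ) (ht : 0 < t) : Continuous (sS (D := D) t ht) :=
  ((hG.scale_cont t ht).comp continuous_subtype_val).subtype_mk _

theorem Gauge.mkS_oq : IsOpenQuotientMap (mkS (D := D)) := by
  refine ⟨Quot.mk_surjective, continuous_quot_mk, ?_⟩
  intro V hV
  have : mkS ⁻¹' (mkS '' V) = ⋃ (t : ℝ) (ht : 0 < t), sS t ht ⁻¹' V := by
    ext x
    simp only [mem_preimage, mem_image, mem_iUnion]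
    constructor
    · rintro ⟨y, hy, hyx⟩
      obtain ⟨t, ht, h⟩ := sameOrbit_equiv.symm (mkS_eq.1 hyx)
      refine ⟨t, ht, ?_⟩
      have : sS t ht x = y := Subtype.ext h.symm
      rw [this]; exact hy
    · rintro ⟨t, ht, h⟩
      exact ⟨_, h, mkS_eq.2 (sameOrbit_equiv.symm ⟨t, ht, rfl⟩)⟩
  change IsOpen (mkS ⁻¹' (mkS '' V))
  rw [this]
  exact isOpen_iUnion fun t => isOpen_iUnion fun ht => (hG.sS_cont t ht).isOpen_preimage V hV

theorem Gauge.qN_oq : IsOpenQuotientMap (qN (D := D)) := by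
  refine ⟨?_, ?_, ?_⟩
  · rintro ⟨x, hx⟩
    obtain ⟨X, rfl⟩ := Quot.mk_surjective x
    exact ⟨⟨X, fun h => hx ((trivq_iff _).1 h)⟩, rfl⟩
  · exact (q_cont.comp continuous_subtype_val).subtype_mk _
  · intro U hU
    obtain ⟨V, hV, rfl⟩ := isOpen_induced_iff.1 hU
    have : qN '' (Subtype.val ⁻¹' V) = (Subtype.val : XStar D → XSp D) ⁻¹' (q '' V) := by
      ext x
      constructor
      · rintro ⟨X, hX, rfl⟩
        exact ⟨X.1, hX, rfl⟩
      · rintro ⟨X, hX, hx⟩
        refine ⟨⟨X, fun h => x.2 ?_⟩, hX, Subtype.ext hx⟩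
        rw [← hx]
        exact (trivq_iff _).1 h
    rw [this]
    exact (hG.q_open V hV).preimage continuous_subtype_val

end

end Pool.Agent.Q151.MM
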