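import Pool.Agent.Q151.MM.Lim

/-!
# A continuous homogeneous size functional
-/

open Set MeasureTheory Filter Topology ProbabilityTheory
open scoped ENNReal NNReal

namespace Pool.Agent.Q151.MM

/-- Some 1-Lipschitz function has width more than `r` at level `u`. -/
def W (X : MMSpace) (u r : ℝ) : Prop :=
  ∃ f : X.carrier → ℝ, LipschitzWith 1 f ∧ ∀ a : ℝ, ENNReal.ofReal u < X.mu {x | r < |f x - a|}

theorem meas_abs {X : MMSpace} {f : X.carrier → ℝ} (hf : LipschitzWith 1 f) (r a : ℝ) :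
    MeasurableSet {x | r < |f x - a|} :=
  (isOpen_lt continuous_const (hf.continuous.sub continuous_const).abs).measurableSet

theorem W.mono {X : MMSpace} {u r u' r' : ℝ} (h : W X u r) (hu : u' ≤ u) (hr : r' ≤ r) :
    W X u' r' := by
  obtain ⟨f, hf, h⟩ := h
  refine ⟨f, hf, fun a => ?_⟩
  refine (ENNReal.ofReal_le_ofReal hu).trans_lt ((h a).trans_le (measure_mono ?_))
  intro x hx
  exact lt_of_le_of_lt hr hx

theorem W.shift {X Y : MMSpace} {ε : ℝ≥0} (h : CR X Y ε) {u r : ℝ} (hu : 0 ≤ u)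
    (hw : W Y (u + ε) (r + ε)) : W X u r := by
  obtain ⟨φ, ψ, hφ, hψ, h1, h2⟩ := h
  obtain ⟨g, hg, hw⟩ := hw
  obtain ⟨f, hf, hk⟩ := h2 g hg
  refine ⟨f, hf, fun a => ?_⟩
  have h3 := hw a
  rw [← hψ.2, Measure.map_apply hψ.1 (meas_abs hg _ _)] at h3
  rw [← hφ.2, Measure.map_apply hφ.1 (meas_abs hf _ _)]
  have hsub : ψ ⁻¹' {x | r + ε < |g x - a|} ⊆ φ ⁻¹' {x | r < |f x - a|} ∪
      {t | (ε : ℝ) < |(g ∘ ψ) t - (f ∘ φ) t|} := by
    intro t ht
    by_contra hcon
    rw [mem_union, not_or] at hcon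
    have h4 : |f (φ t) - a| ≤ r := not_lt.1 hcon.1
    have h5 : |g (ψ t) - f (φ t)| ≤ ε := not_lt.1 hcon.2
    have ht : r + ε < |g (ψ t) - a| := ht
    have := abs_sub_le (g (ψ t)) (f (φ t)) a
    linarith
  have h6 := (h3.trans_le (measure_mono hsub)).trans_le (measure_union_le _ _)
  have h7 := h6.trans_le (add_le_add_right hk _)
  rw [ENNReal.ofReal_add hu (NNReal.coe_nonneg ε), ENNReal.ofReal_coe_nnreal] at h7
  exact (ENNReal.add_lt_add_iff_right ENNReal.coe_ne_top).1 h7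

theorem W.iso {X Y : MMSpace} (h : MMIso X Y) {u r : ℝ} (hu : 0 ≤ u) : W X u r ↔ W Y u r := by
  have h0 := h.br.cr
  constructor
  · intro hw
    exact W.shift h0.symm hu (by simpa using hw)
  · intro hw
    exact W.shift h0 hu (by simpa using hw)

theorem W.lt_one {X : MMSpace} {u r : ℝ} (h : W X u r) : u < 1 := by
  obtain ⟨f, hf, h⟩ := h
  have h1 := (h 0).trans_le prob_le_one
  by_contra hc
  push Not at hc
  have := ENNReal.ofReal_le_ofReal hc
  rw [ENNReal.ofReal_one] at this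
  exact absurd h1 (not_lt.2 this)

theorem W.bound (X : MMSpace) {κ : ℝ} (hκ : 0 < κ) :
    ∃ R : ℝ, 0 ≤ R ∧ ∀ u r, κ ≤ u → W X u r → r < R := by
  obtain ⟨x0⟩ := carrier_nonempty X
  obtain ⟨R, hR, hm⟩ := mass X x0 (κ := κ.toNNReal) (by simpa using hκ)
  refine ⟨R, hR, fun u r hu hw => ?_⟩
  obtain ⟨f, hf, hw⟩ := hw
  by_contra hc
  push Not at hc
  have h1 : X.mu {x | r < |f x - f x0|} ≤ X.mu {x | R < dist x x0} := by
    apply measure_mono
    intro x hx
    have hx : r < |f x - f x0| := hx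
    have := (lip_iff f).1 hf x x0
    exact lt_of_le_of_lt hc (hx.trans_le this)
  have h2 := (hw (f x0)).trans_le (h1.trans hm)
  have h3 : (κ.toNNReal : ℝ≥0∞) ≤ ENNReal.ofReal u := ENNReal.ofReal_le_ofReal hu
  exact absurd h2 (not_lt.2 h3)

theorem W.of_scale {X : MMSpace} {u r : ℝ} (t : ℝ) (ht : 0 < t) (F : X.carrier → ℝ)
    (hF' : ∀ x y : X.carrier, |F x - F y| ≤ t * dist x y)
    (h : ∀ a, ENNReal.ofReal u < X.mu {x | t * r < |F x - a|}) : W X u r := by
  refine ⟨fun x => t⁻¹ * F x, ?_, fun a => ?_⟩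
  · rw [lip_iff]
    intro x y
    rw [← mul_sub, abs_mul, abs_of_pos (inv_pos.2 ht)]
    calc t⁻¹ * |F x - F y| ≤ t⁻¹ * (t * dist x y) :=
          mul_le_mul_of_nonneg_left (hF' x y) (inv_pos.2 ht).le
      _ = dist x y := by rw [← mul_assoc, inv_mul_cancel₀ ht.ne', one_mul]
  · have e : {x : X.carrier | r < |t⁻¹ * F x - a|} = {x | t * r < |F x - t * a|} := by
      ext x
      simp only [mem_setOf_eq]
      have : F x - t * a = t * (t⁻¹ * F x - a) := by
        rw [mul_sub, ← mul_assoc, mul_inv_cancel₀ ht.ne', one_mul]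
      rw [this, abs_mul, abs_of_pos ht]
      constructor
      · intro h; exact mul_lt_mul_of_pos_left h ht
      · intro h; exact lt_of_mul_lt_mul_left h ht.le
    rw [e]
    exact h (t * a)

theorem W.scale {X : MMSpace} {u r : ℝ} (t : ℝ) (ht : 0 < t) :
    W (X.scale t ht) u (t * r) ↔ W X u r := by
  constructor
  · rintro ⟨F, hF, h⟩
    exact W.of_scale t ht F ((lip_iff F).1 hF) h
  · rintro ⟨f, hf, h⟩
    rw [lip_iff] at hf
    refine ⟨fun x => t * f x, ?_, fun a => ?_⟩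
    · rw [lip_iff]
      intro x y
      change |t * f x - t * f y| ≤ t * dist (α := X.carrier) x y
      rw [← mul_sub, abs_mul, abs_of_pos ht]
      exact mul_le_mul_of_nonneg_left (hf x y) ht.le
    · have e : {x : X.carrier | t * r < |t * f x - a|} = {x | r < |f x - t⁻¹ * a|} := by
        ext x
        simp only [mem_setOf_eq]
        have : t * f x - a = t * (f x - t⁻¹ * a) := by
          rw [mul_sub, ← mul_assoc, mul_inv_cancel₀ ht.ne', one_mul]
        rw [this, abs_mul, abs_of_pos ht]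
        constructor
        · intro h; exact lt_of_mul_lt_mul_left h ht.le
        · intro h; exact mul_lt_mul_of_pos_left h ht
      have h1 := h (t⁻¹ * a)
      rw [← e] at h1
      exact h1

theorem W.pos {X : MMSpace} (h : ¬ IsTriv X) : ∃ u r : ℝ, 0 < u ∧ 0 < r ∧ W X u r := by
  obtain ⟨x0, hx0⟩ := Measure.nonempty_support (μ := X.mu) (IsProbabilityMeasure.ne_zero _)
  have : ∃ x1 ∈ X.mu.support, x1 ≠ x0 := by
    by_contra hc
    push Not at hc
    apply h
    refine ⟨x0, measure_mono_null ?_ (Measure.measure_compl_support (μ := X.mu))⟩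
    intro z hz hzs
    exact hz (hc z hzs)
  obtain ⟨x1, hx1, hne⟩ := this
  have hd : 0 < dist x1 x0 := dist_pos.2 hne
  set d := dist x1 x0 with hddef
  have p0 : 0 < X.mu (Metric.ball x0 (d / 4)) :=
    (Measure.mem_support_iff_forall x0).1 hx0 _ (Metric.ball_mem_nhds x0 (by linarith))
  have p1 : 0 < X.mu (Metric.ball x1 (d / 4)) :=
    (Measure.mem_support_iff_forall x1).1 hx1 _ (Metric.ball_mem_nhds x1 (by linarith))
  set m : ℝ≥0∞ := min (X.mu (Metric.ball x0 (d / 4))) (X.mu (Metric.ball x1 (d / 4))) with hm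
  have hmpos : 0 < m := lt_min p0 p1
  have hmtop : m ≠ ⊤ := (lt_of_le_of_lt (min_le_left _ _) (measure_lt_top _ _)).ne
  have hu : 0 < m.toReal := ENNReal.toReal_pos hmpos.ne' hmtop
  have hulm : ENNReal.ofReal (m.toReal / 2) < m := by
    conv_rhs => rw [← ENNReal.ofReal_toReal hmtop]
    exact (ENNReal.ofReal_lt_ofReal_iff hu).2 (by linarith)
  refine ⟨m.toReal / 2, d / 8, by linarith, by linarith, fun x => dist x x0,
    LipschitzWith.dist_left x0, fun a => ?_⟩
  rcases le_total (d / 2) |a| with ha | ha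
  · refine (hulm.trans_le (min_le_left _ _)).trans_le (measure_mono ?_)
    intro x hx
    have hx : dist x x0 < d / 4 := hx
    have h1 : |a| ≤ |a - dist x x0| + |dist x x0| := by
      have := abs_add_le (a - dist x x0) (dist x x0)
      simpa using this
    rw [abs_of_nonneg (dist_nonneg (x := x) (y := x0))] at h1
    rw [mem_setOf_eq, abs_sub_comm]
    linarith
  · refine (hulm.trans_le (min_le_right _ _)).trans_le (measure_mono ?_)
    intro x hx
    have hx : dist x x1 < d / 4 := hx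
    have h1 : d ≤ dist x1 x + dist x x0 := dist_triangle _ _ _
    rw [dist_comm x1 x] at h1
    have h2 := le_abs_self (dist x x0 - a)
    have h3 := le_abs_self a
    rw [mem_setOf_eq]
    linarith

/-- The values. -/
def Wset (X : MMSpace) (κ : ℝ) : Set ℝ :=
  {v | v = 0 ∨ ∃ u r, κ < u ∧ 0 ≤ r ∧ W X u r ∧ v = (u - κ) * r}

/-- The size functional. -/
noncomputable def hh (X : MMSpace) (κ : ℝ) : ℝ := sSup (Wset X κ)

theorem Wset_bdd (X : MMSpace) {κ : ℝ} (hκ : 0 < κ) : BddAbove (Wset X κ) := by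
  obtain ⟨R, hR, hb⟩ := W.bound X hκ
  refine ⟨R, ?_⟩
  rintro v (rfl | ⟨u, r, hu, hr, hw, rfl⟩)
  · exact hR
  · have h1 := hb u r hu.le hw
    have h2 := hw.lt_one
    nlinarith

theorem hh_nonneg (X : MMSpace) {κ : ℝ} (hκ : 0 < κ) : 0 ≤ hh X κ :=
  le_csSup (Wset_bdd X hκ) (Or.inl rfl)

theorem le_hh (X : MMSpace) {κ : ℝ} (hκ : 0 < κ) {u r : ℝ} (hu : κ < u) (hr : 0 ≤ r)
    (hw : W X u r) : (u - κ) * r ≤ hh X κ :=
  le_csSup (Wset_bdd X hκ) (Or.inr ⟨u, r, hu, hr, hw, rfl⟩)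

theorem hh_le (X : MMSpace) {κ M : ℝ} (hM : 0 ≤ M)
    (h : ∀ u r, κ < u → 0 ≤ r → W X u r → (u - κ) * r ≤ M) : hh X κ ≤ M := by
  refine csSup_le ⟨0, Or.inl rfl⟩ ?_
  rintro v (rfl | ⟨u, r, hu, hr, hw, rfl⟩)
  · exact hM
  · exact h u r hu hr hw

theorem hh_one (X : MMSpace) : hh X 1 = 0 := by
  refine le_antisymm (hh_le X le_rfl ?_) (hh_nonneg X one_pos)
  intro u r hu hr hw
  exact absurd hw.lt_one (not_lt.2 hu.le)

theorem hh_iso {X Y : MMSpace} (h : MMIso X Y) {κ : ℝ} (hκ : 0 < κ) : hh X κ = hh Y κ := by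
  refine le_antisymm ?_ ?_
  · refine hh_le X (hh_nonneg Y hκ) ?_
    intro u r hu hr hw
    exact le_hh Y hκ hu hr ((W.iso h (by linarith)).1 hw)
  · refine hh_le Y (hh_nonneg X hκ) ?_
    intro u r hu hr hw
    exact le_hh X hκ hu hr ((W.iso h (by linarith)).2 hw)

theorem hh_scale (X : MMSpace) {κ : ℝ} (hκ : 0 < κ) (t : ℝ) (ht : 0 < t) :
    hh (X.scale t ht) κ = t * hh X κ := by
  refine le_antisymm ?_ ?_
  · refine hh_le _ (mul_nonneg ht.le (hh_nonneg X hκ)) ?_
    intro u r hu hr hw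
    have e : r = t * (r / t) := by field_simp
    rw [e] at hw
    have h1 := le_hh X hκ hu (div_nonneg hr ht.le) ((W.scale t ht).1 hw)
    have h2 := mul_le_mul_of_nonneg_left h1 ht.le
    calc (u - κ) * r = t * ((u - κ) * (r / t)) := by field_simp
      _ ≤ _ := h2
  · rw [mul_comm, ← le_div_iff₀ ht]
    refine hh_le _ (div_nonneg (hh_nonneg _ hκ) ht.le) ?_
    intro u r hu hr hw
    have h1 := le_hh (X.scale t ht) hκ hu (mul_nonneg ht.le hr) ((W.scale t ht).2 hw)
    rw [le_div_iff₀ ht]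
    calc (u - κ) * r * t = (u - κ) * (t * r) := by ring
      _ ≤ _ := h1

theorem hh_est {X Y : MMSpace} {δ : ℝ≥0} (h : CR X Y δ) {κ κ' R : ℝ} (hκ : 4 * (δ : ℝ) ≤ κ)
    (hκ0 : 0 < κ) (hκ'0 : 0 < κ') (hκκ : |κ - κ'| ≤ δ) (hR : 0 ≤ R)
    (hb : ∀ u r, κ / 2 ≤ u → W X u r → r < R) : hh Y κ' ≤ hh X κ + 2 * δ * R + δ := by
  have hδ : (0 : ℝ) ≤ δ := δ.2
  have h0 := hh_nonneg X hκ0
  rw [abs_le] at hκκ
  refine hh_le Y (by positivity) ?_
  intro u r hu hr hw
  have hu1 := hw.lt_one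
  rcases le_total r δ with hrd | hrd
  · have : (u - κ') * r ≤ 1 * δ := mul_le_mul (by linarith) hrd hr zero_le_one
    have : 0 ≤ 2 * (δ : ℝ) * R := by positivity
    linarith
  · have hw' : W X (u - δ) (r - δ) := by
      apply W.shift h (by linarith)
      simpa using hw
    have hrR := hb (u - δ) (r - δ) (by linarith) hw'
    have e : (u - κ') * r = (u - κ') * (r - δ) + (u - κ') * δ := by ring
    have h2 : (u - κ') * δ ≤ δ := by nlinarith
    rcases lt_or_ge κ (u - δ) with hc | hc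
    · have h3 := le_hh X hκ0 hc (by linarith) hw'
      have h4 : (u - κ') * (r - δ) ≤ (u - δ - κ) * (r - δ) + 2 * δ * R := by
        have : (u - κ') * (r - δ) = (u - δ - κ) * (r - δ) + (δ + κ - κ') * (r - δ) := by ring
        rw [this]
        have : (δ + κ - κ') * (r - δ) ≤ (2 * δ) * R :=
          mul_le_mul (by linarith) hrR.le (by linarith) (by positivity)
        linarith
      linarith
    · have h4 : (u - κ') * (r - δ) ≤ (2 * δ) * R :=
        mul_le_mul (by linarith) hrR.le (by linarith) (by positivity)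
      linarith

theorem hh_cont (X : MMSpace) {κ : ℝ} (hκ : 0 < κ) {ε : ℝ} (hε : 0 < ε) :
    ∃ δ : ℝ≥0, 0 < δ ∧ ∀ Y κ', CR X Y δ → |κ - κ'| ≤ δ → |hh Y κ' - hh X κ| ≤ ε := by
  obtain ⟨R, hR, hb⟩ := W.bound X (κ := κ / 4) (by linarith)
  obtain ⟨δ, hδ0, hδ1, hδκ, hδε⟩ : ∃ δ : ℝ≥0, 0 < δ ∧ (δ : ℝ) ≤ 1 ∧ 8 * (δ : ℝ) ≤ κ ∧
      2 * δ * (R + 2) + δ ≤ ε := by
    refine ⟨(min 1 (min (κ / 8) (ε / (2 * (R + 2) + 1)))).toNNReal, ?_, ?_, ?_, ?_⟩
    · simp only [Real.toNNReal_pos]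
      exact lt_min one_pos (lt_min (by linarith) (by positivity))
    all_goals
      rw [Real.coe_toNNReal _ (le_min zero_le_one (le_min (by linarith) (by positivity)))]
    · exact min_le_left _ _
    · have : min 1 (min (κ / 8) (ε / (2 * (R + 2) + 1))) ≤ κ / 8 :=
        (min_le_right _ _).trans (min_le_left _ _)
      linarith
    · have h1 : min 1 (min (κ / 8) (ε / (2 * (R + 2) + 1))) ≤ ε / (2 * (R + 2) + 1) :=
        (min_le_right _ _).trans (min_le_right _ _)
      rw [le_div_iff₀ (by positivity)] at h1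
      linarith
  refine ⟨δ, hδ0, fun Y κ' hc hκκ => ?_⟩
  have hδr : (0 : ℝ) < δ := hδ0
  have hκκ' := abs_le.1 hκκ
  have hκ'0 : 0 < κ' := by linarith
  rw [abs_le]
  constructor
  · -- lower bound
    have hb' : ∀ u r, κ' / 2 ≤ u → W Y u r → r < R + 2 := by
      intro u r hu hw
      rcases le_total r δ with hrd | hrd
      · linarith
      · have hw' : W X (u - δ) (r - δ) := by
          apply W.shift hc (by linarith)
          simpa using hw
        have := hb (u - δ) (r - δ) (by linarith) hw'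
        linarith
    have := hh_est hc.symm (κ := κ') (κ' := κ) (R := R + 2) (by linarith) hκ'0 hκ
      (by rw [abs_sub_comm]; exact hκκ) (by linarith) hb'
    linarith
  · have hb' : ∀ u r, κ / 2 ≤ u → W X u r → r < R := fun u r hu hw => hb u r (by linarith) hw
    have := hh_est hc (κ := κ) (κ' := κ') (R := R) (by linarith) hκ hκ'0 hκκ hR hb'
    nlinarith

theorem hh_div {X : MMSpace} (h : ¬ IsTriv X) (C : ℝ) :
    ∃ δ : ℝ≥0, 0 < δ ∧ ∀ Y (κ : ℝ), CR X Y δ → 0 < κ → κ ≤ δ → C ≤ hh Y κ / κ := by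
  obtain ⟨u, r, hu, hr, hw⟩ := W.pos h
  obtain ⟨δ, hδ0, hδu, hδr, hδC⟩ : ∃ δ : ℝ≥0, 0 < δ ∧ (δ : ℝ) ≤ u / 4 ∧ (δ : ℝ) ≤ r / 2 ∧
      |C| * δ ≤ u * r / 8 := by
    refine ⟨(min (u / 4) (min (r / 2) ((u * r / 8) / (|C| + 1)))).toNNReal, ?_, ?_, ?_, ?_⟩
    · simp only [Real.toNNReal_pos]
      exact lt_min (by linarith) (lt_min (by linarith) (by positivity))
    all_goals
      rw [Real.coe_toNNReal _ (le_min (by linarith) (le_min (by linarith) (by positivity)))]
    · exact min_le_left _ _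
    · exact (min_le_right _ _).trans (min_le_left _ _)
    · have h1 : min (u / 4) (min (r / 2) ((u * r / 8) / (|C| + 1))) ≤ (u * r / 8) / (|C| + 1) :=
        (min_le_right _ _).trans (min_le_right _ _)
      rw [le_div_iff₀ (by positivity)] at h1
      have h2 : 0 ≤ min (u / 4) (min (r / 2) ((u * r / 8) / (|C| + 1))) :=
        le_min (by linarith) (le_min (by linarith) (by positivity))
      linarith
  refine ⟨δ, hδ0, fun Y κ hc hκ hκδ => ?_⟩
  have hδr' : (0 : ℝ) < δ := hδ0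
  have hw' : W Y (u - δ) (r - δ) := by
    apply W.shift hc.symm (by linarith)
    simpa using hw
  have h1 := le_hh Y hκ (u := u - δ) (r := r - δ) (by linarith) (by linarith) hw'
  rw [le_div_iff₀ hκ]
  have h2 : (u / 2) * (r / 2) ≤ (u - δ - κ) * (r - δ) :=
    mul_le_mul (by linarith) (by linarith) (by linarith) (by linarith)
  have h3 : C * κ ≤ |C| * δ :=
    mul_le_mul (le_abs_self C) hκδ hκ.le (abs_nonneg C)
  nlinarith

end Pool.Agent.Q151.MM
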